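import Pool.Agent.X27.Chr.Abel

set_option autoImplicit false
set_option linter.unusedSectionVars false

/-! Blocks of direct products with abelian groups of prime power order. -/

open scoped BigOperators Classical
open Representation

noncomputable section

namespace Pool.Agent.X27.Chr

open Pool.Agent.Helper884.IC

theorem irr_triv (G : Type) [Group G] [Fintype G] : IsIrrChar (fun _ : G => (1 : ℂ)) := by
  have h1 : (Representation.trivial ℂ G ℂ).character = fun _ : G => (1 : ℂ) := by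
    funext g
    unfold Representation.character
    have : (Representation.trivial ℂ G ℂ) g = LinearMap.id := rfl
    rw [this, LinearMap.trace_id]
    simp
  rw [← h1]
  apply irr_of_norm
  rw [h1]
  unfold B
  simp only [mul_one, Finset.sum_const, Finset.card_univ, nsmul_eq_mul]
  rw [← Nat.card_eq_fintype_card]
  exact inv_mul_cancel₀ cardG_ne

section
variable {A : Type} [CommGroup A] [Fintype A]

theorem om_abel {chi : A → ℂ} (h : IsIrrChar chi) (g : A) : om chi g = chi g := by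
  unfold om scal
  have h1 : chi 1 = 1 := by rw [dg_cast h, abel_deg h, Nat.cast_one]
  rw [h1, div_one, Finset.sum_eq_single g]
  · rw [if_pos (show g ∈ {x | IsConj g x} from IsConj.refl g)]
  · intro b _ hb
    rw [if_neg]
    intro hc
    exact hb (isConj_iff_eq.1 hc).symm
  · intro hn
    exact absurd (Finset.mem_univ _) hn

theorem abel_pow {chi : A → ℂ} (h : IsIrrChar chi) (g : A) (n : ℕ) : chi (g ^ n) = chi g ^ n := by
  induction n with
  | zero => rw [pow_zero, pow_zero, dg_cast h, abel_deg h, Nat.cast_one]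
  | succ n ih => rw [pow_succ, abel_mul h, ih, pow_succ]

variable {p : ℕ} {M : Ideal (integralClosure ℤ ℂ)}

theorem root_cg [Fact p.Prime] (hM : M.IsPrime) (hp : (p : integralClosure ℤ ℂ) ∈ M) {z : ℂ} {n : ℕ}
    (hz : z ^ p ^ n = 1) : Cg M z 1 := by
  have hpz : 0 < p ^ n := pow_pos (Fact.out : p.Prime).pos n
  have hint : IsIntegral ℤ z := IsIntegral.of_pow hpz (by rw [hz]; exact isIntegral_one)
  let w : integralClosure ℤ ℂ := ⟨z, hint⟩
  have hw : w ^ p ^ n = 1 := Subtype.ext (by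
    change ((w ^ p ^ n : integralClosure ℤ ℂ) : ℂ) = 1
    push_cast
    exact hz)
  refine ⟨w - 1, ?_, by push_cast; rfl⟩
  have hc : CharP ((integralClosure ℤ ℂ) ⧸ M) p := by
    have hnt : Nontrivial ((integralClosure ℤ ℂ) ⧸ M) := Ideal.Quotient.nontrivial_iff.2 hM.ne_top
    have h0 : ((p : ℕ) : (integralClosure ℤ ℂ) ⧸ M) = 0 := by
      have := Ideal.Quotient.eq_zero_iff_mem.2 hp
      simpa using this
    exact (CharP.charP_iff_prime_eq_zero ‹Fact p.Prime›.out).2 h0
  have hr : IsReduced ((integralClosure ℤ ℂ) ⧸ M) := by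
    have : IsDomain ((integralClosure ℤ ℂ) ⧸ M) := Ideal.Quotient.isDomain M
    infer_instance
  rw [← Ideal.Quotient.eq_zero_iff_mem, map_sub, map_one]
  have h2 : (Ideal.Quotient.mk M w - 1) ^ p ^ n = 0 := by
    rw [sub_pow_char_pow, ← map_pow, hw, map_one, one_pow, sub_self]
  exact pow_eq_zero_iff hpz.ne' |>.1 h2

theorem blk_abel [Fact p.Prime] (hM : M.IsPrime) (hp : (p : integralClosure ℤ ℂ) ∈ M) {n : ℕ}
    (hA : Nat.card A = p ^ n) : Blk M (fun _ : A => (1 : ℂ)) = {chi | IsIrrChar chi} := by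
  ext chi
  constructor
  · intro h
    exact h.1
  · intro h
    refine ⟨h, fun g => ?_⟩
    rw [om_abel h]
    refine root_cg hM hp (n := n) ?_
    rw [← abel_pow h, ← hA, pow_card_eq_one', dg_cast h, abel_deg h, Nat.cast_one]

theorem H0_abel (p : ℕ) (S : Set (A → ℂ)) (hS : ∀ chi ∈ S, IsIrrChar chi) : H0 p S = S := by
  ext chi
  constructor
  · intro h
    exact h.1
  · intro h
    refine ⟨h, fun psi hpsi => ?_⟩
    rw [abel_deg (hS _ h), abel_deg (hS _ hpsi)]

theorem k0_abel [Fact p.Prime] (hM : M.IsPrime) (hp : (p : integralClosure ℤ ℂ) ∈ M) {n : ℕ}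
    (hA : Nat.card A = p ^ n) : k0 p M ∅ (fun _ : A => (1 : ℂ)) = p ^ n := by
  have h1 : H0 p {chi : A → ℂ | IsIrrChar chi} = {chi : A → ℂ | IsIrrChar chi} :=
    H0_abel p {chi : A → ℂ | IsIrrChar chi} (fun _ h => h)
  unfold k0
  rw [blk_abel hM hp hA, h1, ← hA, ← abel_card (A := A)]
  refine Nat.card_congr (Equiv.subtypeEquivRight fun chi => ?_)
  simp

theorem lam_triv (g : A) : lam (⊤ : Subgroup A) (fun _ => (1 : ℂ)) g = 1 := by
  unfold lam scal
  rw [div_one]
  have hg : g ∈ Nm (⊤ : Subgroup A) := by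
    rw [Subgroup.mem_normalizer_iff]
    intro h
    simp
  rw [Finset.sum_eq_single ⟨g, hg⟩]
  · rw [if_pos]
    refine ⟨?_, IsConj.refl _⟩
    rw [Subgroup.mem_centralizer_iff]
    intro h _
    exact mul_comm _ _
  · intro b _ hb
    rw [if_neg]
    rintro ⟨_, hc⟩
    exact hb (Subtype.ext (isConj_iff_eq.1 hc).symm)
  · intro hn
    exact absurd (Finset.mem_univ _) hn

theorem card_nm_top : Nat.card (Nm (⊤ : Subgroup A)) = Nat.card A := by
  have h1 : Nm (⊤ : Subgroup A) = ⊤ := by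
    ext y
    simp [Subgroup.mem_normalizer_iff]
  rw [h1, Subgroup.card_top]

theorem datum_top [Fact p.Prime] {n : ℕ} (hA : Nat.card A = p ^ n) :
    IsDatum p M (⊤ : Subgroup A) (fun _ => (1 : ℂ)) := by
  refine ⟨IsPGroup.iff_card.2 ⟨n, by rw [Subgroup.card_top, hA]⟩, irr_triv _, ?_⟩
  intro phi hphi
  rw [abel_deg hphi.1.1, card_nm_top, Subgroup.card_top]
  simp

end

variable {p : ℕ} {M : Ideal (integralClosure ℤ ℂ)}

/-- The direct product with an abelian group of order `p^n`. -/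
def Dat.mul [Fact p.Prime] (x : Dat p M) (A : Type) [CommGroup A] [Fintype A] {n : ℕ}
    (hA : Nat.card A = p ^ n) : Dat p M where
  G := x.G × A
  D := x.D.prod ⊤
  psi := fun y => bx x.psi (fun _ => (1 : ℂ)) (eN x.D ⊤ y)
  ok := isDatum_prod x.ok (datum_top hA)

variable [hp : Fact p.Prime]

theorem Dat.kG_mul (hM : M.IsPrime) (hpM : (p : integralClosure ℤ ℂ) ∈ M) (x : Dat p M) (A : Type)
    [CommGroup A] [Fintype A] {n : ℕ} (hA : Nat.card A = p ^ n) :
    (x.mul A hA).kG ∅ = x.kG ∅ * p ^ n := by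
  have h0 : (x.mul A hA).kG ∅ = k0 p M ∅ (lam (x.D.prod (⊤ : Subgroup A))
    (fun y => bx x.psi (fun _ => (1 : ℂ)) (eN x.D ⊤ y))) := rfl
  rw [h0]
  unfold Dat.kG
  have h1 : lam (⊤ : Subgroup A) (fun _ => (1 : ℂ)) = fun _ => 1 := funext lam_triv
  rw [lam_prod, h1, k0_bx ∅ (lam_one x.ok.2.1) rfl (fun _ => isIntegral_one), k0_abel hM hpM hA]

theorem Dat.kN_mul (hM : M.IsPrime) (hpM : (p : integralClosure ℤ ℂ) ∈ M) (x : Dat p M) (A : Type)
    [CommGroup A] [Fintype A] {n : ℕ} (hA : Nat.card A = p ^ n) :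
    (x.mul A hA).kN ∅ = x.kN ∅ * p ^ n := by
  have h0 : (x.mul A hA).kN ∅ = k0 p M ∅
    (om (fun y => bx x.psi (fun _ => (1 : ℂ)) (eN x.D (⊤ : Subgroup A) y))) := rfl
  rw [h0]
  unfold Dat.kN
  have h1 : om (fun _ : Nm (⊤ : Subgroup A) => (1 : ℂ)) = fun _ => 1 :=
    funext fun g => om_abel (irr_triv _) g
  rw [om_prod, k0_comp, h1, k0_bx ∅ (om_one x.ok.2.1) rfl (fun _ => isIntegral_one),
    k0_abel hM hpM (card_nm_top.trans hA)]

theorem Dat.card_mul (x : Dat p M) (A : Type) [CommGroup A] [Fintype A] {n : ℕ}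
    (hA : Nat.card A = p ^ n) : Nat.card (x.mul A hA).D = Nat.card x.D * p ^ n := by
  change Nat.card (x.D.prod (⊤ : Subgroup A)) = _
  rw [Nat.card_congr (Subgroup.prodEquiv x.D (⊤ : Subgroup A)).toEquiv, Nat.card_prod,
    Subgroup.card_top, hA]

theorem card_mz_pow (n : ℕ) : Nat.card (Multiplicative (ZMod (p ^ n))) = p ^ n := card_mz _

instance nz_pow (n : ℕ) : NeZero (p ^ n) := ⟨(pow_pos hp.out.pos n).ne'⟩

/-- The direct product with a cyclic group of order `p^n`. -/
def Dat.cyc (x : Dat p M) (n : ℕ) : Dat p M :=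
  x.mul (Multiplicative (ZMod (p ^ n))) (card_mz_pow n)

end Pool.Agent.X27.Chr
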