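import Pool.Agent.X27.Chr.Add

set_option autoImplicit false
set_option linter.unusedSectionVars false

/-! Alternating sums over chains of `p`-subgroups and direct products with abelian `p`-groups. -/

open scoped BigOperators Classical
open Representation

noncomputable section

namespace Pool.Agent.X27.Chr

open Pool.Agent.Helper884.IC

section
variable {G : Type} [Group G] [Fintype G]

/-- The central character of the block of `G` which is induced from the block of `theta`: the class of `g` goes to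
the scalar by which the sum of the elements of the class in `H` acts. -/
def ind (H : Subgroup G) (theta : H → ℂ) (g : G) : ℂ := scal {x : H | IsConj g (x : G)} theta

theorem ind_integral {H : Subgroup G} {theta : H → ℂ} (h : IsIrrChar theta) (g : G) :
    IsIntegral ℤ (ind H theta g) := by
  refine scal_integral ?_ h
  intro x hx y
  exact IsConj.trans hx (isConj_iff.2 ⟨(y : G), rfl⟩)

/-- The defect of a character. -/
def defect (p : ℕ) {H : Type} [Group H] [Fintype H] (theta : H → ℂ) : ℤ :=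
  (padicValNat p (Nat.card H) : ℤ) - padicValNat p (dg theta)

/-- The number of the irreducible characters of `H` of defect in `Q` whose block induces the block of `G` with
central character `f`. -/
def kd (p : ℕ) (M : Ideal (integralClosure ℤ ℂ)) (H : Subgroup G) (f : G → ℂ) (Q : Set ℤ) : ℕ :=
  Nat.card {theta : H → ℂ // (IsIrrChar theta ∧ defect p theta ∈ Q) ∧ ∀ g, Cg M (ind H theta g) (f g)}

/-- A chain `O < D_1 < ... < D_n` of `p`-subgroups. -/
def IsChn (p : ℕ) (O : Subgroup G) (C : Finset (Subgroup G)) : Prop :=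
  (∀ D ∈ C, O < D ∧ IsPGroup p D) ∧ IsChain (· ≤ ·) (C : Set (Subgroup G))

/-- The stabiliser of a chain. -/
def st (C : Finset (Subgroup G)) : Subgroup G := ⨅ D ∈ C, Nm D

/-- The term of a chain in the alternating sum. -/
def term (p : ℕ) (M : Ideal (integralClosure ℤ ℂ)) (f : G → ℂ) (Q : Set ℤ) (C : Finset (Subgroup G)) : ℝ :=
  (-1) ^ C.card * kd p M (st C) f Q

/-- The alternating sum over the orbits of chains: the sum over all chains, each counted with weight the inverse of the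
length `|G| / |G_C|` of its orbit. -/
def alt (p : ℕ) (M : Ideal (integralClosure ℤ ℂ)) (O : Subgroup G) (f : G → ℂ) (Q : Set ℤ) : ℝ :=
  ∑ C : {C : Finset (Subgroup G) // IsChn p O C}, term p M f Q C.1 * (Nat.card (st C.1) / Nat.card G)

end

section prod
variable {G A : Type} [Group G] [Fintype G] [CommGroup A] [Fintype A]

/-- The product of a subgroup with `A`. -/
def eA (H : Subgroup G) : (H.prod (⊤ : Subgroup A)) ≃* H × A :=
  (Subgroup.prodEquiv H ⊤).trans (MulEquiv.prodCongr (MulEquiv.refl _) Subgroup.topEquiv)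

theorem eA_fst (H : Subgroup G) (x : H.prod (⊤ : Subgroup A)) : (((eA H x).1 : H) : G) = (x : G × A).1 := rfl

theorem eA_snd (H : Subgroup G) (x : H.prod (⊤ : Subgroup A)) : (eA H x).2 = (x : G × A).2 := rfl

variable {p : ℕ} {M : Ideal (integralClosure ℤ ℂ)}

theorem ind_prod (H : Subgroup G) (theta : H → ℂ) (mu : A → ℂ) (hmu : IsIrrChar mu) (g : G) (a : A) :
    ind (H.prod (⊤ : Subgroup A)) (fun y => bx theta mu (eA H y)) (g, a) = ind H theta g * mu a := by
  unfold ind
  have h1 : {x : H.prod (⊤ : Subgroup A) | IsConj (g, a) (x : G × A)} =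
      eA H ⁻¹' ({x : H | IsConj g (x : G)} ×ˢ {x : A | IsConj a x}) := by
    ext x
    simp only [Set.mem_ofPred_eq, Set.mem_preimage, Set.mem_prod, eA_fst, eA_snd, isConj_iff, Prod.exists]
    constructor
    · rintro ⟨u, v, h⟩
      exact ⟨⟨u, congrArg Prod.fst h⟩, ⟨v, congrArg Prod.snd h⟩⟩
    · rintro ⟨⟨u, hu⟩, ⟨v, hv⟩⟩
      exact ⟨u, v, Prod.ext hu hv⟩
  rw [h1, scal_comp, scal_bx]
  congr 1
  exact om_abel hmu a

theorem kd_prod [hp : Fact p.Prime] (hM : M.IsPrime) (hpM : (p : integralClosure ℤ ℂ) ∈ M) {n : ℕ}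
    (hA : Nat.card A = p ^ n) (H : Subgroup G) (f : G → ℂ) (Q : Set ℤ) :
    kd p M (H.prod (⊤ : Subgroup A)) (bx f (fun _ => 1)) ((fun d : ℤ => d + n) '' Q) = kd p M H f Q * p ^ n := by
  have hcard : padicValNat p (Nat.card (H.prod (⊤ : Subgroup A))) = padicValNat p (Nat.card H) + n := by
    rw [Nat.card_congr (eA H).toEquiv, Nat.card_prod, padicValNat.mul Nat.card_pos.ne' Nat.card_pos.ne', hA,
      padicValNat.prime_pow]
  have hdg : ∀ (theta : H → ℂ) (mu : A → ℂ), IsIrrChar theta → IsIrrChar mu →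
      defect p (fun y => bx theta mu (eA H y)) = defect p theta + n := by
    intro theta mu h1 h2
    unfold defect
    rw [dg_comp (eA H) (bx theta mu), dg_bx h1 h2, abel_deg h2, mul_one, hcard]
    push_cast
    ring
  have hiff : ∀ (theta : H → ℂ) (mu : A → ℂ), IsIrrChar theta → IsIrrChar mu →
      ((defect p (fun y => bx theta mu (eA H y)) ∈ (fun d : ℤ => d + n) '' Q) ∧
        (∀ g, Cg M (ind (H.prod (⊤ : Subgroup A)) (fun y => bx theta mu (eA H y)) g) (bx f (fun _ => 1) g)) ↔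
      defect p theta ∈ Q ∧ ∀ g, Cg M (ind H theta g) (f g)) := by
    intro theta mu h1 h2
    refine and_congr ?_ ?_
    · rw [hdg theta mu h1 h2]
      constructor
      · rintro ⟨d, hd, h⟩
        have h' : d = defect p theta := add_right_cancel h
        rwa [← h']
      · intro h
        exact ⟨_, h, rfl⟩
    · constructor
      · intro h g
        have h3 := h (g, 1)
        rw [ind_prod H theta mu h2] at h3
        have h4 : mu 1 = 1 := by rw [dg_cast h2, abel_deg h2, Nat.cast_one]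
        unfold bx at h3
        rwa [h4, mul_one, mul_one] at h3
      · rintro h ⟨g, a⟩
        rw [ind_prod H theta mu h2]
        refine Cg.mul (ind_integral h1 g) isIntegral_one (h g) ?_
        refine root_cg hM hpM (n := n) ?_
        rw [← abel_pow h2, ← hA, pow_card_eq_one', dg_cast h2, abel_deg h2, Nat.cast_one]
  unfold kd
  rw [← hA, ← abel_card (A := A), ← Nat.card_prod]
  let F : {theta : H → ℂ // (IsIrrChar theta ∧ defect p theta ∈ Q) ∧
      ∀ g, Cg M (ind H theta g) (f g)} × {mu : A → ℂ // IsIrrChar mu} →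
      {phi : (H.prod (⊤ : Subgroup A)) → ℂ // (IsIrrChar phi ∧ defect p phi ∈
        (fun d : ℤ => d + n) '' Q) ∧
        ∀ g, Cg M (ind (H.prod (⊤ : Subgroup A)) phi g) (bx f (fun _ => 1) g)} :=
    fun x => ⟨fun y => bx x.1.1 x.2.1 (eA H y), by
      have h3 := (hiff x.1.1 x.2.1 x.1.2.1.1 x.2.2).2 ⟨x.1.2.1.2, x.1.2.2⟩
      exact ⟨⟨irr_comp _ (irr_bx x.1.2.1.1 x.2.2), h3.1⟩, h3.2⟩⟩
  have hinj : Function.Injective F := by
    rintro ⟨⟨a, ha⟩, ⟨b, hb⟩⟩ ⟨⟨a', ha'⟩, ⟨b', hb'⟩⟩ h
    have h2 : (fun y => bx a b (eA H y)) = fun y => bx a' b' (eA H y) := congrArg Subtype.val h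
    have h3 : bx a b = bx a' b' := (trans (eA H)).injective h2
    obtain ⟨rfl, rfl⟩ := bx_inj ha.1.1 ha'.1.1 hb hb' h3
    rfl
  have hsurj : Function.Surjective F := by
    rintro ⟨phi, hphi⟩
    obtain ⟨chi, rfl⟩ := (trans (eA H)).surjective phi
    have h2 : IsIrrChar chi := (irr_comp_iff (eA H) chi).1 hphi.1.1
    obtain ⟨theta, mu, hc, hq, rfl⟩ := irr_prod_surj h2
    have h4 := (hiff theta mu hc hq).1 ⟨hphi.1.2, hphi.2⟩
    exact ⟨⟨⟨theta, ⟨hc, h4.1⟩, h4.2⟩, ⟨mu, hq⟩⟩, rfl⟩
  exact (Nat.card_congr (Equiv.ofBijective F ⟨hinj, hsurj⟩)).symm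

theorem prod_top_inj {D E : Subgroup G} (h : D.prod (⊤ : Subgroup A) = E.prod ⊤) : D = E := by
  ext g
  have h1 : (g, (1 : A)) ∈ D.prod (⊤ : Subgroup A) ↔ (g, (1 : A)) ∈ E.prod (⊤ : Subgroup A) := by rw [h]
  simpa [Subgroup.mem_prod] using h1

theorem prod_top_le {D E : Subgroup G} : D.prod (⊤ : Subgroup A) ≤ E.prod ⊤ ↔ D ≤ E := by
  constructor
  · intro h g hg
    have := h (show (g, (1 : A)) ∈ D.prod (⊤ : Subgroup A) from ⟨hg, Subgroup.mem_top _⟩)
    exact this.1
  · rintro h ⟨g, a⟩ hg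
    exact ⟨h hg.1, Subgroup.mem_top _⟩

theorem prod_top_lt {D E : Subgroup G} : D.prod (⊤ : Subgroup A) < E.prod ⊤ ↔ D < E := by
  rw [lt_iff_le_not_ge, lt_iff_le_not_ge, prod_top_le, prod_top_le]

/-- A subgroup which contains `O × A` is a product. -/
theorem eq_prod {O : Subgroup G} {D : Subgroup (G × A)} (h : O.prod (⊤ : Subgroup A) ≤ D) :
    (D.comap (MonoidHom.inl G A)).prod ⊤ = D := by
  ext ⟨g, a⟩
  have ha : ((1 : G), a) ∈ D := h ⟨O.one_mem, Subgroup.mem_top _⟩
  constructor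
  · rintro ⟨h1, _⟩
    have h2 : (g, (1 : A)) ∈ D := h1
    have := D.mul_mem h2 ha
    simpa using this
  · intro h1
    refine ⟨?_, Subgroup.mem_top _⟩
    have := D.mul_mem h1 (D.inv_mem ha)
    simpa using this

theorem pgroup_prod [hp : Fact p.Prime] {n : ℕ} (hA : Nat.card A = p ^ n) {D : Subgroup G} :
    IsPGroup p (D.prod (⊤ : Subgroup A)) ↔ IsPGroup p D := by
  have hc : Nat.card (D.prod (⊤ : Subgroup A)) = Nat.card D * p ^ n := by
    rw [Nat.card_congr (eA D).toEquiv, Nat.card_prod, hA]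
  constructor
  · intro h
    exact h.of_injective ((eA D).symm.toMonoidHom.comp (MonoidHom.inl D A))
      ((eA D).symm.injective.comp (fun x y hxy => congrArg Prod.fst hxy))
  · intro h
    obtain ⟨a, ha⟩ := IsPGroup.iff_card.1 h
    exact IsPGroup.iff_card.2 ⟨a + n, by rw [hc, ha, pow_add]⟩

/-- The chains of the product. -/
def pr (C : Finset (Subgroup G)) : Finset (Subgroup (G × A)) :=
  C.image fun D => D.prod (⊤ : Subgroup A)

theorem pr_card (C : Finset (Subgroup G)) : (pr (A := A) C).card = C.card :=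
  Finset.card_image_of_injective _ fun _ _ h => prod_top_inj h

theorem pr_st (C : Finset (Subgroup G)) : st (pr (A := A) C) = (st C).prod ⊤ := by
  ext ⟨g, a⟩
  unfold st pr
  simp only [Subgroup.mem_iInf, Finset.mem_image, forall_exists_index, and_imp, forall_apply_eq_imp_iff₂,
    Subgroup.mem_prod, Subgroup.mem_top, and_true]
  refine forall₂_congr fun D _ => ?_
  rw [nm_prod, Subgroup.mem_prod]
  have : a ∈ Nm (⊤ : Subgroup A) := by
    rw [Subgroup.mem_normalizer_iff]
    intro h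
    simp
  simp [this]

theorem pr_chn [hp : Fact p.Prime] {n : ℕ} (hA : Nat.card A = p ^ n) (O : Subgroup G)
    (C : Finset (Subgroup G)) : IsChn p (O.prod ⊤) (pr (A := A) C) ↔ IsChn p O C := by
  unfold IsChn pr
  refine and_congr ?_ ?_
  · simp only [Finset.mem_image, forall_exists_index, and_imp, forall_apply_eq_imp_iff₂]
    refine forall₂_congr fun D _ => ?_
    rw [prod_top_lt, pgroup_prod hA]
  · simp only [IsChain, Set.Pairwise, Finset.coe_image, Set.mem_image, Finset.mem_coe, forall_exists_index,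
      and_imp, forall_apply_eq_imp_iff₂]
    refine forall₂_congr fun D _ => forall₂_congr fun E _ => ?_
    rw [prod_top_le, prod_top_le]
    refine imp_congr ?_ Iff.rfl
    exact not_congr ⟨fun h => prod_top_inj h, fun h => by rw [h]⟩

theorem pr_surj (O : Subgroup G)
    (C : Finset (Subgroup (G × A))) (hC : IsChn p (O.prod ⊤) C) :
    ∃ C' : Finset (Subgroup G), pr C' = C := by
  refine ⟨C.image fun D => D.comap (MonoidHom.inl G A), ?_⟩
  unfold pr
  rw [Finset.image_image]
  ext D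
  simp only [Finset.mem_image, Function.comp_apply]
  constructor
  · rintro ⟨E, hE, rfl⟩
    rw [eq_prod (hC.1 E hE).1.le]
    exact hE
  · intro hD
    exact ⟨D, hD, eq_prod (hC.1 D hD).1.le⟩

theorem alt_prod [hp : Fact p.Prime] (hM : M.IsPrime) (hpM : (p : integralClosure ℤ ℂ) ∈ M) {n : ℕ}
    (hA : Nat.card A = p ^ n) (O : Subgroup G) (f : G → ℂ) (Q : Set ℤ) :
    alt p M (O.prod (⊤ : Subgroup A)) (bx f (fun _ => 1)) ((fun d : ℤ => d + n) '' Q) =
      alt p M O f Q * (p : ℝ) ^ n := by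
  unfold alt
  rw [Finset.sum_mul]
  have hpos : (0 : ℝ) < (p : ℝ) ^ n := pow_pos (by exact_mod_cast hp.out.pos) _
  let e : {C : Finset (Subgroup G) // IsChn p O C} ≃
      {C : Finset (Subgroup (G × A)) // IsChn p (O.prod (⊤ : Subgroup A)) C} :=
    Equiv.ofBijective (fun C => ⟨pr C.1, (pr_chn hA O C.1).2 C.2⟩) ⟨fun C C' h => by
      have h1 : pr (A := A) C.1 = pr C'.1 := congrArg Subtype.val h
      exact Subtype.ext (Finset.image_injective (fun _ _ h => prod_top_inj h) h1), fun C => by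
      obtain ⟨C', hC'⟩ := pr_surj O C.1 C.2
      have h2 : IsChn p O C' := by
        rw [← pr_chn hA, hC']
        exact C.2
      exact ⟨⟨C', h2⟩, Subtype.ext hC'⟩⟩
  symm
  refine Fintype.sum_equiv e _ _ fun C => ?_
  have h1 : (e C).1 = pr C.1 := rfl
  rw [h1]
  unfold term
  rw [pr_st, kd_prod hM hpM hA, pr_card, Nat.card_congr (eA (A := A) (st C.1)).toEquiv, Nat.card_prod,
    Nat.card_prod, hA]
  push_cast
  have hG : (Nat.card G : ℝ) ≠ 0 := by exact_mod_cast Nat.card_pos.ne'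
  field_simp

/-- `O` is the largest normal `p`-subgroup. -/
def IsCore (p : ℕ) (O : Subgroup G) : Prop :=
  (O.Normal ∧ IsPGroup p O) ∧ ∀ N : Subgroup G, N.Normal → IsPGroup p N → N ≤ O

theorem core_prod [hp : Fact p.Prime] {n : ℕ} (hA : Nat.card A = p ^ n) {O : Subgroup G} (h : IsCore p O) :
    IsCore p (O.prod (⊤ : Subgroup A)) := by
  obtain ⟨⟨h1, h2⟩, h3⟩ := h
  refine ⟨⟨Subgroup.prod_normal O ⊤, (pgroup_prod hA).2 h2⟩, fun N hN hNp => ?_⟩
  have h4 : (N.map (MonoidHom.fst G A)).Normal := hN.map _ Prod.fst_surjective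
  have h5 := h3 _ h4 (hNp.map _)
  rintro ⟨g, a⟩ hg
  exact ⟨h5 ⟨(g, a), hg, rfl⟩, Subgroup.mem_top _⟩

theorem defect_prod [hp : Fact p.Prime] {n : ℕ} (hA : Nat.card A = p ^ n) {psi : G → ℂ} (h : IsIrrChar psi) :
    defect p (bx psi (fun _ : A => (1 : ℂ))) = defect p psi + n := by
  unfold defect
  rw [dg_bx h (irr_triv A), abel_deg (irr_triv A), mul_one, Nat.card_prod,
    padicValNat.mul Nat.card_pos.ne' Nat.card_pos.ne', hA, padicValNat.prime_pow]
  push_cast
  ring

end prod

/-- A finite group `G` with `O = O_p(G)` in the centre, and an irreducible character `chi` in a block of defect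
larger than that of `O`. -/
structure DBlk (p : ℕ) (M : Ideal (integralClosure ℤ ℂ)) where
  G : Type
  [grp : Group G]
  [fin : Fintype G]
  O : Subgroup G
  chi : G → ℂ
  core : IsCore p O
  cen : O ≤ Subgroup.center G
  irr : IsIrrChar chi
  big : ∃ psi ∈ Blk M (om chi), (padicValNat p (Nat.card O) : ℤ) < defect p psi

attribute [instance] DBlk.grp DBlk.fin

variable {p : ℕ} {M : Ideal (integralClosure ℤ ℂ)}

/-- The alternating sum for the block of `chi` and the characters of defect in `Q`. -/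
def DBlk.S (x : DBlk p M) (Q : Set ℤ) : ℝ := alt p M x.O (om x.chi) Q

variable [hp : Fact p.Prime]

theorem cen_prod {G A : Type} [Group G] [CommGroup A] {O : Subgroup G} (h : O ≤ Subgroup.center G) :
    O.prod (⊤ : Subgroup A) ≤ Subgroup.center (G × A) := by
  rintro ⟨g, a⟩ hg
  rw [Subgroup.mem_center_iff]
  rintro ⟨u, v⟩
  have h1 := Subgroup.mem_center_iff.1 (h hg.1) u
  exact Prod.ext h1 (mul_comm v a)

theorem big_prod {G A : Type} [Group G] [Fintype G] [CommGroup A] [Fintype A] {n : ℕ}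
    (hA : Nat.card A = p ^ n) {O : Subgroup G} {chi : G → ℂ} (hc : IsIrrChar chi)
    (h : ∃ psi ∈ Blk M (om chi), (padicValNat p (Nat.card O) : ℤ) < defect p psi) :
    ∃ psi ∈ Blk M (om (bx chi (fun _ : A => (1 : ℂ)))),
      (padicValNat p (Nat.card (O.prod (⊤ : Subgroup A))) : ℤ) < defect p psi := by
  obtain ⟨psi, h1, h2⟩ := h
  refine ⟨bx psi (fun _ => 1), ?_, ?_⟩
  · have h3 : om (bx chi (fun _ : A => (1 : ℂ))) = bx (om chi) (fun _ => 1) := by
      funext y
      rw [om_bx, om_abel (irr_triv A)]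
      rfl
    rw [h3, blk_bx (om_one hc) rfl (fun _ => isIntegral_one) h1.1 (irr_triv A)]
    refine ⟨h1, irr_triv A, fun g => ?_⟩
    rw [om_abel (irr_triv A)]
    exact ⟨0, M.zero_mem, by simp⟩
  · rw [defect_prod hA h1.1, Nat.card_congr (eA O).toEquiv, Nat.card_prod,
      padicValNat.mul Nat.card_pos.ne' Nat.card_pos.ne', hA, padicValNat.prime_pow, Nat.cast_add]
    linarith

/-- The direct product with an abelian group of order `p^n`. -/
def DBlk.mul (x : DBlk p M) (A : Type) [CommGroup A] [Fintype A] {n : ℕ}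
    (hA : Nat.card A = p ^ n) : DBlk p M where
  G := x.G × A
  O := x.O.prod ⊤
  chi := bx x.chi (fun _ => 1)
  core := core_prod hA x.core
  cen := cen_prod x.cen
  irr := irr_bx x.irr (irr_triv A)
  big := big_prod hA x.irr x.big

theorem DBlk.S_mul (hM : M.IsPrime) (hpM : (p : integralClosure ℤ ℂ) ∈ M) (x : DBlk p M) (A : Type)
    [CommGroup A] [Fintype A] {n : ℕ} (hA : Nat.card A = p ^ n) (Q : Set ℤ) :
    (x.mul A hA).S ((fun d : ℤ => d + n) '' Q) = x.S Q * (p : ℝ) ^ n := by
  have h0 : (x.mul A hA).S ((fun d : ℤ => d + n) '' Q) =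
      alt p M (x.O.prod (⊤ : Subgroup A)) (om (bx x.chi (fun _ => 1))) ((fun d : ℤ => d + n) '' Q) := rfl
  have h3 : om (bx x.chi (fun _ : A => (1 : ℂ))) = bx (om x.chi) (fun _ => 1) := by
    funext y
    rw [om_bx, om_abel (irr_triv A)]
    rfl
  rw [h0, h3, alt_prod hM hpM hA]
  rfl

/-- The direct product with a cyclic group of order `p^n`. -/
def DBlk.cyc (x : DBlk p M) (n : ℕ) : DBlk p M :=
  x.mul (Multiplicative (ZMod (p ^ n))) (card_mz_pow n)

theorem DBlk.card_cyc (x : DBlk p M) (n : ℕ) : Nat.card (x.cyc n).G = Nat.card x.G * p ^ n := by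
  change Nat.card (x.G × Multiplicative (ZMod (p ^ n))) = _
  rw [Nat.card_prod, card_mz_pow]

/-- Any saving over the order of the group gives the inequality. -/
theorem le_of_small (hM : M.IsPrime) (hpM : (p : integralClosure ℤ ℂ) ∈ M) {ι : Type} (P : DBlk p M → ι → Prop)
    (Q : ι → Set ℤ) (hP : ∀ x i, P x i → ∀ n : ℕ, ∃ j, P (x.cyc n) j ∧ Q j = (fun d : ℤ => d + n) '' Q i) (s : ℝ)
    (h : ∀ ε : ℝ, 0 < ε → ∃ N : ℕ, ∀ x i, P x i → N ≤ Nat.card x.G → s * x.S (Q i) ≤ ε * Nat.card x.G)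
    (x : DBlk p M) (i : ι) (hx : P x i) : s * x.S (Q i) ≤ 0 := by
  by_contra hlt
  push Not at hlt
  have hD : (0 : ℝ) < Nat.card x.G := by exact_mod_cast Nat.card_pos
  obtain ⟨N, hN⟩ := h (s * x.S (Q i) / (2 * Nat.card x.G)) (by positivity)
  have hpos : (0 : ℝ) < (p : ℝ) ^ N := pow_pos (by exact_mod_cast hp.out.pos) _
  obtain ⟨j, hj, hQ⟩ := hP x i hx N
  have h1 := hN (x.cyc N) j hj ?_
  · rw [hQ] at h1
    have h2 : (x.cyc N).S ((fun d : ℤ => d + N) '' Q i) = x.S (Q i) * (p : ℝ) ^ N :=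
      DBlk.S_mul hM hpM x (Multiplicative (ZMod (p ^ N))) (card_mz_pow N) (Q i)
    rw [h2, DBlk.card_cyc] at h1
    push_cast at h1
    have h5 : s * x.S (Q i) / (2 * (Nat.card x.G : ℝ)) * ((Nat.card x.G : ℝ) * (p : ℝ) ^ N) =
        s * x.S (Q i) / 2 * (p : ℝ) ^ N := by
      field_simp
    rw [h5, ← mul_assoc] at h1
    have h6 := le_of_mul_le_mul_right h1 hpos
    linarith
  · rw [DBlk.card_cyc]
    calc N ≤ p ^ N := (Nat.lt_pow_self hp.out.one_lt).le
      _ ≤ Nat.card x.G * p ^ N := Nat.le_mul_of_pos_left _ Nat.card_pos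

/-- A class is closed under direct products with cyclic `p`-groups. -/
theorem iff_small (hM : M.IsPrime) (hpM : (p : integralClosure ℤ ℂ) ∈ M) {ι : Type} (P : DBlk p M → ι → Prop)
    (Q : ι → Set ℤ) (hP : ∀ x i, P x i → ∀ n : ℕ, ∃ j, P (x.cyc n) j ∧ Q j = (fun d : ℤ => d + n) '' Q i) :
    ((∀ x i, P x i → x.S (Q i) = 0) ↔ ∀ ε : ℝ, 0 < ε → ∃ N : ℕ, ∀ x i, P x i → N ≤ Nat.card x.G →
      |x.S (Q i)| ≤ ε * Nat.card x.G) := by
  constructor
  · intro h ε hε
    refine ⟨0, fun x i hx _ => ?_⟩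
    rw [h x i hx, abs_zero]
    positivity
  · intro h x i hx
    apply le_antisymm
    · have := le_of_small hM hpM P Q hP 1 (fun ε hε => by
        obtain ⟨N, hN⟩ := h ε hε
        exact ⟨N, fun x i hx hG => by have := abs_le.1 (hN x i hx hG); linarith⟩) x i hx
      linarith
    · have := le_of_small hM hpM P Q hP (-1) (fun ε hε => by
        obtain ⟨N, hN⟩ := h ε hε
        exact ⟨N, fun x i hx hG => by have := abs_le.1 (hN x i hx hG); linarith⟩) x i hx
      linarith

end Pool.Agent.X27.Chr
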