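import Pool.Agent.X27.Chr.Mk

set_option autoImplicit false
set_option linter.unusedSectionVars false

/-! The irreducible characters of a finite abelian group. -/

open scoped BigOperators Classical
open Representation

noncomputable section

namespace Pool.Agent.X27.Chr

open Pool.Agent.Helper884.IC

section
variable {A : Type} [CommGroup A] [Fintype A]

theorem abel_deg {chi : A → ℂ} (h : IsIrrChar chi) : dg chi = 1 := by
  obtain ⟨V, _, _, _, rho, hr, rfl⟩ := h
  have h1 : Module.finrank ℂ V = 1 :=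
    Representation.IsIrreducible.finrank_eq_one_of_isMulCommutative rho
  apply dg_eq
  rw [rho.char_one, h1]

theorem abel_mul {chi : A → ℂ} (h : IsIrrChar chi) (a b : A) : chi (a * b) = chi a * chi b := by
  obtain ⟨V, _, _, _, rho, hr, rfl⟩ := h
  have h1 : Module.finrank ℂ V = 1 :=
    Representation.IsIrreducible.finrank_eq_one_of_isMulCommutative rho
  have key : ∀ g : A, rho g = (rho.character g) • (LinearMap.id : V →ₗ[ℂ] V) := by
    intro g
    obtain ⟨c, hc⟩ : ∃ c : ℂ, rho g = c • (LinearMap.id : V →ₗ[ℂ] V) := by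
      obtain ⟨v, hv, hv2⟩ := finrank_eq_one_iff'.1 h1
      obtain ⟨c, hc⟩ := hv2 (rho g v)
      refine ⟨c, ?_⟩
      ext w
      obtain ⟨d, rfl⟩ := hv2 w
      rw [map_smul, ← hc, LinearMap.smul_apply, LinearMap.id_apply, smul_comm]
    have h2 : rho.character g = c := by
      unfold Representation.character
      rw [hc, map_smul, LinearMap.trace_id, h1]
      simp
    rw [h2]
    exact hc
  have h2 : rho (a * b) = (rho.character a * rho.character b) • (LinearMap.id : V →ₗ[ℂ] V) := by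
    rw [map_mul, key a, key b]
    ext v
    rw [Module.End.mul_apply, LinearMap.smul_apply, LinearMap.smul_apply, LinearMap.smul_apply,
      LinearMap.id_apply, LinearMap.id_apply, smul_smul]
  have h3 : rho.character (a * b) = LinearMap.trace ℂ V (rho (a * b)) := rfl
  rw [h3, h2, map_smul, LinearMap.trace_id, h1]
  simp

theorem isClass_comm (f : A → ℂ) : IsClass f := fun g y => by
  rw [mul_comm y g, mul_inv_cancel_right]

theorem abel_card : Nat.card {chi : A → ℂ // IsIrrChar chi} = Nat.card A := by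
  have hli : LinearIndependent ℂ (fun x : Irr A => (x : A → ℂ)) := by
    rw [linearIndependent_iff']
    intro s c hc i hi
    have h1 := congrArg (fun F => B F i.1) hc
    rw [B_sum_left] at h1
    simp only [B_smul_left] at h1
    rw [Finset.sum_eq_single i] at h1
    · rw [B_irr (mem_Irr.1 i.2) (mem_Irr.1 i.2), if_pos rfl, mul_one] at h1
      rw [h1]
      simp [B]
    · intro j _ hj
      rw [B_irr (mem_Irr.1 j.2) (mem_Irr.1 i.2), if_neg (fun h => hj (Subtype.ext h)), mul_zero]
    · intro h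
      exact absurd hi h
  have hsp : ⊤ ≤ Submodule.span ℂ (Set.range fun x : Irr A => (x : A → ℂ)) := by
    intro f _
    rw [expand f (isClass_comm f)]
    refine Submodule.sum_mem _ fun chi hchi => Submodule.smul_mem _ _ ?_
    exact Submodule.subset_span ⟨⟨chi, hchi⟩, rfl⟩
  have h1 := Module.finrank_eq_card_basis (Module.Basis.mk hli hsp)
  rw [Module.finrank_fintype_fun_eq_card] at h1
  rw [Nat.card_eq_fintype_card (α := A), h1, ← Nat.card_eq_fintype_card]
  exact Nat.card_congr (Equiv.subtypeEquivRight fun chi => mem_Irr.symm)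

end

/-- The number of irreducible characters of degree `≡ ± k` modulo `p`. -/
def ck (p : ℕ) (k : ZMod p) (G : Type) [Group G] [Fintype G] : ℕ :=
  Nat.card {chi : G → ℂ // IsIrrChar chi ∧ ((dg chi : ZMod p) = k ∨ (dg chi : ZMod p) = -k)}

theorem ck_congr (p : ℕ) (k : ZMod p) {G H : Type} [Group G] [Fintype G] [Group H] [Fintype H]
    (e : G ≃* H) : ck p k G = ck p k H := by
  unfold ck
  refine (Nat.card_congr ?_).symm
  refine (trans e).subtypeEquiv fun chi => ?_
  refine and_congr (irr_comp_iff e chi).symm ?_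
  have h3 : dg ((trans e) chi) = dg chi := dg_comp e chi
  rw [h3]

theorem ck_prod (p : ℕ) (k : ZMod p) {G A : Type} [Group G] [Fintype G]
    [CommGroup A] [Fintype A] : ck p k (G × A) = ck p k G * Nat.card A := by
  let F : {chi : G → ℂ // IsIrrChar chi ∧ ((dg chi : ZMod p) = k ∨ (dg chi : ZMod p) = -k)} ×
      {psi : A → ℂ // IsIrrChar psi} →
      {phi : G × A → ℂ // IsIrrChar phi ∧ ((dg phi : ZMod p) = k ∨ (dg phi : ZMod p) = -k)} :=
    fun x => ⟨bx x.1.1 x.2.1, irr_bx x.1.2.1 x.2.2, by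
      rw [dg_bx x.1.2.1 x.2.2, abel_deg x.2.2, mul_one]
      exact x.1.2.2⟩
  have hinj : Function.Injective F := by
    rintro ⟨⟨a, ha⟩, ⟨b, hb⟩⟩ ⟨⟨a', ha'⟩, ⟨b', hb'⟩⟩ h
    have h2 : bx a b = bx a' b' := congrArg Subtype.val h
    obtain ⟨rfl, rfl⟩ := bx_inj ha.1 ha'.1 hb hb' h2
    rfl
  have hsurj : Function.Surjective F := by
    rintro ⟨phi, hphi⟩
    obtain ⟨chi, psi, hc, hq, rfl⟩ := irr_prod_surj hphi.1
    have h2 := hphi.2
    rw [dg_bx hc hq, abel_deg hq, mul_one] at h2
    exact ⟨⟨⟨chi, hc, h2⟩, ⟨psi, hq⟩⟩, rfl⟩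
  unfold ck
  rw [← abel_card (A := A), ← Nat.card_prod]
  exact (Nat.card_congr (Equiv.ofBijective F ⟨hinj, hsurj⟩)).symm

theorem cyc_pgroup {p : ℕ} [hp : Fact p.Prime] (x : Syl p) (n : ℕ) [NeZero n] :
    IsPGroup p (x.D.prod (⊥ : Subgroup (Multiplicative (ZMod n)))) := by
  obtain ⟨a, ha⟩ := IsPGroup.iff_card.1 x.pgroup
  refine IsPGroup.iff_card.2 ⟨a, ?_⟩
  rw [Nat.card_congr (Subgroup.prodEquiv x.D (⊥ : Subgroup (Multiplicative (ZMod n)))).toEquiv,
    Nat.card_prod, ha, Subgroup.card_bot, mul_one]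

theorem cyc_index {p : ℕ} [hp : Fact p.Prime] (x : Syl p) (n : ℕ) [NeZero n] (hn : ¬ p ∣ n) :
    ¬ p ∣ (x.D.prod (⊥ : Subgroup (Multiplicative (ZMod n)))).index := by
  rw [Subgroup.index_prod, Subgroup.index_bot, hp.out.dvd_mul, not_or]
  refine ⟨x.index, ?_⟩
  have : Nat.card (Multiplicative (ZMod n)) = n := by
    rw [Nat.card_congr Multiplicative.toAdd, Nat.card_zmod]
  rwa [this]

/-- The product with a cyclic group of order `n` prime to `p`. -/
def Syl.cyc {p : ℕ} [hp : Fact p.Prime] (x : Syl p) (n : ℕ) [NeZero n] (hn : ¬ p ∣ n) : Syl p where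
  G := x.G × Multiplicative (ZMod n)
  D := x.D.prod ⊥
  pgroup := cyc_pgroup x n
  index := cyc_index x n hn

theorem card_mz (n : ℕ) : Nat.card (Multiplicative (ZMod n)) = n := by
  rw [Nat.card_congr Multiplicative.toAdd, Nat.card_zmod]

theorem ck_cyc {p : ℕ} [hp : Fact p.Prime] (x : Syl p) (n : ℕ) [NeZero n] (hn : ¬ p ∣ n) (k : ZMod p) :
    ck p k (x.cyc n hn).G = ck p k x.G * n ∧ ck p k (Nm (x.cyc n hn).D) = ck p k (Nm x.D) * n := by
  refine ⟨?_, ?_⟩
  · change ck p k (x.G × Multiplicative (ZMod n)) = _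
    rw [ck_prod, card_mz]
  · change ck p k (Nm (x.D.prod (⊥ : Subgroup (Multiplicative (ZMod n))))) = _
    rw [ck_congr p k (eN x.D (⊥ : Subgroup (Multiplicative (ZMod n)))), ck_prod]
    congr 1
    have h1 : Nm (⊥ : Subgroup (Multiplicative (ZMod n))) = ⊤ := by
      ext y
      simp [Subgroup.mem_normalizer_iff]
    rw [h1, Subgroup.card_top, card_mz]

end Pool.Agent.X27.Chr
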