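import Pool.Agent.Helper884.IC.Compl

set_option autoImplicit false
set_option linter.unusedSectionVars false

/-! The irreducible characters of a direct product. -/

open scoped BigOperators Classical
open Representation

noncomputable section

namespace Pool.Agent.X27.Chr

open Pool.Agent.Helper884.IC

section norm
variable {G : Type} [Group G] [Fintype G]

theorem nat_B {V : Type} [AddCommGroup V] [Module ℂ V] [FiniteDimensional ℂ V]
    (rho : Representation ℂ G V) {psi : G → ℂ} (h : IsIrrChar psi) :
    ∃ n : ℕ, B rho.character psi = n := by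
  obtain ⟨W, _, _, _, sigma, hs, rfl⟩ := h
  have : Invertible (Nat.card G : ℂ) := invertibleOfNonzero cardG_ne
  exact ⟨_, card_inv_mul_sum_char_mul_char_eq_finrank sigma rho⟩

/-- A character of norm one is irreducible. -/
theorem irr_of_norm {V : Type} [AddCommGroup V] [Module ℂ V] [FiniteDimensional ℂ V]
    (rho : Representation ℂ G V) (h : B rho.character rho.character = 1) : IsIrrChar rho.character := by
  have hcl : IsClass rho.character := isClass_char rho
  choose n hn using fun psi : Irr G => nat_B rho (mem_Irr.mp psi.2)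
  have h1 := B_expand rho.character rho.character hcl
  rw [h, ← Finset.sum_coe_sort] at h1
  have h2 : (1 : ℂ) = ((∑ psi : Irr G, n psi * n psi : ℕ) : ℂ) := by
    rw [h1]
    push_cast
    refine Finset.sum_congr rfl fun psi _ => ?_
    rw [B_comm psi.1 rho.character, hn]
  have h3 : ∑ psi : Irr G, n psi * n psi = 1 := by exact_mod_cast h2.symm
  obtain ⟨psi, hpsi⟩ : ∃ psi, n psi ≠ 0 := by
    by_contra hno
    push Not at hno
    simp [hno] at h3
  have h4 : n psi * n psi + ∑ phi ∈ Finset.univ.erase psi, n phi * n phi = 1 := by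
    exact (Finset.add_sum_erase Finset.univ (fun phi => n phi * n phi) (Finset.mem_univ psi)).trans h3
  have h5 : 1 ≤ n psi * n psi := Nat.one_le_iff_ne_zero.2 (mul_ne_zero hpsi hpsi)
  have h6 : ∑ phi ∈ Finset.univ.erase psi, n phi * n phi = 0 := by omega
  have h7 : n psi = 1 := by
    have : n psi * n psi = 1 := by omega
    exact Nat.eq_one_of_mul_eq_one_right this
  have h8 : ∀ phi : Irr G, phi ≠ psi → n phi = 0 := by
    intro phi hphi
    have := Finset.sum_eq_zero_iff.1 h6 phi (Finset.mem_erase.2 ⟨hphi, Finset.mem_univ _⟩)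
    exact mul_self_eq_zero.1 this
  have h9 := expand rho.character hcl
  rw [← Finset.sum_coe_sort, Finset.sum_eq_single psi] at h9
  · rw [hn, h7, Nat.cast_one, one_smul] at h9
    rw [h9]
    exact mem_Irr.mp psi.2
  · intro phi _ hphi
    rw [hn, h8 phi hphi, Nat.cast_zero, zero_smul]
  · intro hno
    exact absurd (Finset.mem_univ _) hno

theorem deg_pos {chi : G → ℂ} (h : IsIrrChar chi) : ∃ n : ℕ, 0 < n ∧ chi 1 = n := by
  have hB := B_irr h h
  rw [if_pos rfl] at hB
  obtain ⟨V, _, _, _, rho, hr, rfl⟩ := h
  refine ⟨Module.finrank ℂ V, ?_, rho.char_one⟩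
  rcases Nat.eq_zero_or_pos (Module.finrank ℂ V) with h0 | h0
  · exfalso
    have hsub : Subsingleton V := Module.finrank_zero_iff.1 h0
    have hz : ∀ g, rho.character g = 0 := by
      intro g
      unfold Representation.character
      have : rho g = 0 := Subsingleton.elim _ _
      rw [this, map_zero]
    simp [B, hz] at hB
  · exact h0

/-- Transport along an isomorphism. -/
theorem irr_comp {H : Type} [Group H] [Fintype H] (e : G ≃* H) {chi : H → ℂ} (h : IsIrrChar chi) :
    IsIrrChar (fun g => chi (e g)) := by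
  have hB := B_irr h h
  rw [if_pos rfl] at hB
  obtain ⟨V, _, _, _, rho, hr, rfl⟩ := h
  let sigma : Representation ℂ G V := rho.comp e.toMonoidHom
  have h1 : sigma.character = fun g => rho.character (e g) := rfl
  rw [← h1]
  apply irr_of_norm
  rw [← hB, h1]
  unfold B
  rw [Nat.card_congr e.toEquiv]
  congr 1
  refine Fintype.sum_equiv e.toEquiv _ _ fun g => ?_
  simp

end norm

section prod
variable {G H : Type} [Group G] [Fintype G] [Group H] [Fintype H]

/-- The external product. -/
def bx (f : G → ℂ) (h : H → ℂ) : G × H → ℂ := fun x => f x.1 * h x.2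

theorem B_bx (f f' : G → ℂ) (h h' : H → ℂ) : B (bx f h) (bx f' h') = B f f' * B h h' := by
  unfold B bx
  rw [Nat.card_prod, Fintype.sum_prod_type]
  push_cast
  rw [mul_inv]
  have : ∑ x : G, ∑ y : H, f x * h y * (f' (x, y)⁻¹.1 * h' (x, y)⁻¹.2) =
      (∑ g : G, f g * f' g⁻¹) * ∑ g : H, h g * h' g⁻¹ := by
    rw [Finset.sum_mul_sum]
    refine Finset.sum_congr rfl fun x _ => Finset.sum_congr rfl fun y _ => ?_
    simp only [Prod.fst_inv, Prod.snd_inv]
    ring
  rw [this]
  ring

theorem irr_bx {chi : G → ℂ} {psi : H → ℂ} (h : IsIrrChar chi) (h' : IsIrrChar psi) :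
    IsIrrChar (bx chi psi) := by
  have hB := B_irr h h
  have hB' := B_irr h' h'
  rw [if_pos rfl] at hB hB'
  obtain ⟨V, _, _, _, rho, hr, rfl⟩ := h
  obtain ⟨W, _, _, _, sigma, hs, rfl⟩ := h'
  let a : Representation ℂ (G × H) V := rho.comp (MonoidHom.fst G H)
  let b : Representation ℂ (G × H) W := sigma.comp (MonoidHom.snd G H)
  have h1 : (a.tprod b).character = bx rho.character sigma.character := by
    rw [char_tensor]
    rfl
  rw [← h1]
  apply irr_of_norm
  rw [h1, B_bx, hB, hB', mul_one]

theorem irr_prod_surj {phi : G × H → ℂ} (h : IsIrrChar phi) :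
    ∃ chi psi, IsIrrChar chi ∧ IsIrrChar psi ∧ phi = bx (G := G) (H := H) chi psi := by
  by_contra hno
  push Not at hno
  have hcl := h.isClass
  have h0 : ∀ chi psi, IsIrrChar chi → IsIrrChar psi → B phi (bx (G := G) (H := H) chi psi) = 0 := by
    intro chi psi h1 h2
    rw [B_irr h (irr_bx h1 h2), if_neg (hno chi psi h1 h2)]
  have h1 : ∀ psi : H → ℂ, IsIrrChar psi → ∀ g : G, B (fun y => phi (g, y)) psi = 0 := by
    intro psi hpsi
    have h2 : (fun g : G => B (fun y => phi (g, y)) psi) = 0 := by
      apply class_eq_zero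
      · intro g x
        change B (fun y => phi (x * g * x⁻¹, y)) psi = B (fun y => phi (g, y)) psi
        congr 1
        funext y
        have := hcl (g, y) (x, 1)
        simpa using this
      · intro chi hchi
        have h3 := h0 chi psi hchi hpsi
        unfold B bx at h3
        rw [Nat.card_prod, Fintype.sum_prod_type] at h3
        have h4 : ((Nat.card G * Nat.card H : ℕ) : ℂ)⁻¹ ≠ 0 := by
          apply inv_ne_zero
          push_cast
          exact mul_ne_zero cardG_ne cardG_ne
        have h5 := (mul_eq_zero.1 h3).resolve_left h4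
        unfold B
        rw [mul_eq_zero]
        right
        have h6 : ∑ x : G, ((Nat.card H : ℂ)⁻¹ * ∑ g : H, phi (x, g) * psi g⁻¹) * chi x⁻¹ =
            (Nat.card H : ℂ)⁻¹ * ∑ x : G, ∑ y : H, phi (x, y) * (chi (x, y)⁻¹.1 * psi (x, y)⁻¹.2) := by
          rw [Finset.mul_sum]
          refine Finset.sum_congr rfl fun x _ => ?_
          rw [mul_assoc, Finset.sum_mul]
          refine congrArg _ (Finset.sum_congr rfl fun y _ => ?_)
          simp only [Prod.fst_inv, Prod.snd_inv]
          ring
        rw [h6, h5, mul_zero]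
    intro g
    exact congrFun h2 g
  have h2 : phi = 0 := by
    funext x
    have h3 : (fun y : H => phi (x.1, y)) = 0 := by
      apply class_eq_zero
      · intro y z
        have := hcl (x.1, y) (1, z)
        simpa using this
      · intro psi hpsi
        exact h1 psi hpsi x.1
    exact congrFun h3 x.2
  have h3 := B_irr h h
  rw [if_pos rfl, h2] at h3
  simp [B] at h3

theorem bx_inj {chi chi' : G → ℂ} {psi psi' : H → ℂ} (h1 : IsIrrChar chi) (h1' : IsIrrChar chi')
    (h2 : IsIrrChar psi) (h2' : IsIrrChar psi') (h : bx chi psi = bx chi' psi') :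
    chi = chi' ∧ psi = psi' := by
  have h3 := B_bx chi chi' psi psi'
  rw [← h, B_irr (irr_bx h1 h2) (irr_bx h1 h2), if_pos rfl, B_irr h1 h1', B_irr h2 h2'] at h3
  by_cases ha : chi = chi'
  · by_cases hb : psi = psi'
    · exact ⟨ha, hb⟩
    · rw [if_neg hb, mul_zero] at h3
      exact absurd h3 one_ne_zero
  · rw [if_neg ha, zero_mul] at h3
    exact absurd h3 one_ne_zero

end prod

end Pool.Agent.X27.Chr
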