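import Pool.Agent.X27.Chr.Blk

set_option autoImplicit false
set_option linter.unusedSectionVars false

/-! The Brauer correspondence and direct squares. -/

open scoped BigOperators Classical
open Representation

noncomputable section

namespace Pool.Agent.X27.Chr

open Pool.Agent.Helper884.IC

section
variable {G : Type} [Group G] [Fintype G]

/-- The normaliser of `D`. -/
abbrev Nm (D : Subgroup G) : Subgroup G := Subgroup.normalizer (D : Set G)

/-- The elements of `N_G(D)` which centralise `D` and are conjugate to `g` in `G`. -/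
def cset (D : Subgroup G) (g : G) : Set (Nm D) :=
  {x | (x : G) ∈ Subgroup.centralizer (D : Set G) ∧ IsConj g (x : G)}

/-- The central character of the block of `G` which is induced from the block of `psi`: the class of `g` goes to
the scalar by which the sum of the elements of the class in `C_G(D)` acts. -/
def lam (D : Subgroup G) (psi : Nm D → ℂ) (g : G) : ℂ := scal (cset D g) psi

theorem lam_one {D : Subgroup G} {psi : Nm D → ℂ} (h : IsIrrChar psi) : lam D psi 1 = 1 := by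
  unfold lam
  have : cset D 1 = {1} := by
    ext x
    simp only [cset, Set.mem_ofPred_eq, Set.mem_singleton_iff]
    constructor
    · rintro ⟨_, h2⟩
      apply Subtype.ext
      exact (isConj_one_right.1 h2)
    · rintro rfl
      exact ⟨Subgroup.one_mem _, IsConj.refl _⟩
  rw [this, scal_one h]

theorem lam_integral {D : Subgroup G} {psi : Nm D → ℂ} (h : IsIrrChar psi) (g : G) :
    IsIntegral ℤ (lam D psi g) := by
  refine scal_integral ?_ h
  rintro x ⟨hx1, hx2⟩ y
  refine ⟨?_, hx2.trans (isConj_iff.2 ⟨(y : G), rfl⟩)⟩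
  rw [Subgroup.mem_centralizer_iff] at hx1 ⊢
  intro d hd
  have hy : (y : G)⁻¹ * d * y ∈ D := by
    have h1 := (Subgroup.mem_normalizer_iff.1 (Subgroup.inv_mem _ y.2)) d
    rw [inv_inv] at h1
    exact h1.1 hd
  have h2 := hx1 _ hy
  change d * ((y : G) * x * (y : G)⁻¹) = ((y : G) * x * (y : G)⁻¹) * d
  calc d * ((y : G) * x * (y : G)⁻¹) = y * (((y : G)⁻¹ * d * y) * x) * (y : G)⁻¹ := by group
    _ = y * (x * ((y : G)⁻¹ * d * y)) * (y : G)⁻¹ := by rw [h2]
    _ = _ := by group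

/-- `D` is a `p`-subgroup and `psi` an irreducible character of `N_G(D)` in a block with defect group `D`. -/
def IsDatum (p : ℕ) (M : Ideal (integralClosure ℤ ℂ)) (D : Subgroup G) (psi : Nm D → ℂ) : Prop :=
  IsPGroup p D ∧ IsIrrChar psi ∧ ∀ phi ∈ H0 p (Blk M (om psi)),
    padicValNat p (dg phi) + padicValNat p (Nat.card D) = padicValNat p (Nat.card (Nm D))

end

section prod
variable {G H : Type} [Group G] [Fintype G] [Group H] [Fintype H]

theorem nm_prod (D : Subgroup G) (E : Subgroup H) : Nm (D.prod E) = (Nm D).prod (Nm E) := by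
  ext ⟨a, b⟩
  rw [Subgroup.mem_prod, Subgroup.mem_normalizer_iff, Subgroup.mem_normalizer_iff,
    Subgroup.mem_normalizer_iff]
  constructor
  · intro h
    refine ⟨fun x => ?_, fun y => ?_⟩
    · have := h (x, 1)
      simpa [Subgroup.mem_prod, E.one_mem] using this
    · have := h (1, y)
      simpa [Subgroup.mem_prod, D.one_mem] using this
  · rintro ⟨h1, h2⟩ ⟨x, y⟩
    have a1 := h1 x
    have a2 := h2 y
    simp [Subgroup.mem_prod, a1, a2]

/-- The normaliser of a direct product. -/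
def eN (D : Subgroup G) (E : Subgroup H) : Nm (D.prod E) ≃* Nm D × Nm E :=
  (MulEquiv.subgroupCongr (nm_prod D E)).trans (Subgroup.prodEquiv (Nm D) (Nm E))

theorem eN_fst (D : Subgroup G) (E : Subgroup H) (x : Nm (D.prod E)) :
    ((eN D E x).1 : G) = (x : G × H).1 := rfl

theorem eN_snd (D : Subgroup G) (E : Subgroup H) (x : Nm (D.prod E)) :
    ((eN D E x).2 : H) = (x : G × H).2 := rfl

theorem cset_prod (D : Subgroup G) (E : Subgroup H) (g : G × H) :
    cset (D.prod E) g = eN D E ⁻¹' (cset D g.1 ×ˢ cset E g.2) := by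
  ext x
  simp only [cset, Set.mem_ofPred_eq, Set.mem_preimage, Set.mem_prod, eN_fst, eN_snd,
    Subgroup.mem_centralizer_iff]
  constructor
  · rintro ⟨h1, h2⟩
    rw [isConj_iff] at h2
    obtain ⟨c, hc⟩ := h2
    refine ⟨⟨fun d hd => ?_, isConj_iff.2 ⟨c.1, congrArg Prod.fst hc⟩⟩,
      ⟨fun d hd => ?_, isConj_iff.2 ⟨c.2, congrArg Prod.snd hc⟩⟩⟩
    · exact congrArg Prod.fst (h1 (d, 1) ⟨hd, E.one_mem⟩)
    · exact congrArg Prod.snd (h1 (1, d) ⟨D.one_mem, hd⟩)
  · rintro ⟨⟨h1, h2⟩, ⟨h3, h4⟩⟩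
    rw [isConj_iff] at h2 h4
    obtain ⟨a, ha⟩ := h2
    obtain ⟨b, hb⟩ := h4
    refine ⟨fun d hd => ?_, isConj_iff.2 ⟨(a, b), Prod.ext ha hb⟩⟩
    exact Prod.ext (h1 d.1 hd.1) (h3 d.2 hd.2)

theorem lam_prod (D : Subgroup G) (E : Subgroup H) (psi : Nm D → ℂ) (phi : Nm E → ℂ) :
    lam (D.prod E) (fun y => bx psi phi (eN D E y)) = bx (lam D psi) (lam E phi) := by
  funext g
  unfold lam
  rw [cset_prod, scal_comp, scal_bx]
  rfl

theorem om_prod (D : Subgroup G) (E : Subgroup H) (psi : Nm D → ℂ) (phi : Nm E → ℂ) :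
    om (fun y => bx psi phi (eN D E y)) = fun y => bx (om psi) (om phi) (eN D E y) := by
  funext y
  rw [om_comp, om_bx]
  rfl

variable {p : ℕ} {M : Ideal (integralClosure ℤ ℂ)}

theorem isDatum_prod [Fact p.Prime] {D : Subgroup G} {E : Subgroup H} {psi : Nm D → ℂ} {phi : Nm E → ℂ}
    (h : IsDatum p M D psi) (h' : IsDatum p M E phi) :
    IsDatum p M (D.prod E) (fun y => bx psi phi (eN D E y)) := by
  obtain ⟨h1, h2, h3⟩ := h
  obtain ⟨h1', h2', h3'⟩ := h'
  refine ⟨?_, irr_comp _ (irr_bx h2 h2'), ?_⟩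
  · obtain ⟨a, ha⟩ := IsPGroup.iff_card.1 h1
    obtain ⟨b, hb⟩ := IsPGroup.iff_card.1 h1'
    refine IsPGroup.iff_card.2 ⟨a + b, ?_⟩
    rw [Nat.card_congr (Subgroup.prodEquiv D E).toEquiv, Nat.card_prod, ha, hb, pow_add]
  · intro chi hchi
    rw [om_prod] at hchi
    obtain ⟨theta, rfl⟩ := (trans (eN D E)).surjective chi
    have h4 : theta ∈ H0 p (Blk M (bx (om psi) (om phi))) := (H0_comp p M (eN D E) _ theta).1 hchi
    obtain ⟨a, b, ha, hb, rfl⟩ := irr_prod_surj h4.1.1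
    obtain ⟨h5, h6⟩ := (H0_bx (om_one h2) (om_one h2') (fun y => om_integral h2' y) ha hb).1 h4
    have h7 : dg ((trans (eN D E)) (bx a b)) = dg (bx a b) := dg_comp (eN D E) (bx a b)
    rw [h7, val_bx ha hb, Nat.card_congr (Subgroup.prodEquiv D E).toEquiv,
      Nat.card_congr (eN D E).toEquiv, Nat.card_prod, Nat.card_prod,
      padicValNat.mul Nat.card_pos.ne' Nat.card_pos.ne', padicValNat.mul Nat.card_pos.ne' Nat.card_pos.ne',
      ← h3 a h5, ← h3' b h6]
    ring

end prod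

/-- A finite group `G`, a `p`-subgroup `D` and an irreducible character `psi` of `N_G(D)` in a block with defect
group `D`. -/
structure Dat (p : ℕ) (M : Ideal (integralClosure ℤ ℂ)) where
  G : Type
  [grp : Group G]
  [fin : Fintype G]
  D : Subgroup G
  psi : Nm D → ℂ
  ok : IsDatum p M D psi

attribute [instance] Dat.grp Dat.fin

variable {p : ℕ} {M : Ideal (integralClosure ℤ ℂ)}

/-- The number of height zero characters, fixed by `K`, of the block of `G` induced from the block of `psi`. -/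
def Dat.kG (K : Set (ℂ ≃+* ℂ)) (x : Dat p M) : ℕ := k0 p M K (lam x.D x.psi)

/-- The number of height zero characters, fixed by `K`, of the block of `psi`. -/
def Dat.kN (K : Set (ℂ ≃+* ℂ)) (x : Dat p M) : ℕ := k0 p M K (om x.psi)

/-- The direct square. -/
def Dat.sq [Fact p.Prime] (x : Dat p M) : Dat p M where
  G := x.G × x.G
  D := x.D.prod x.D
  psi := fun y => bx x.psi x.psi (eN x.D x.D y)
  ok := isDatum_prod x.ok x.ok

variable [hp : Fact p.Prime] (K : Set (ℂ ≃+* ℂ))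

theorem Dat.kG_sq (x : Dat p M) : x.sq.kG K = x.kG K ^ 2 := by
  unfold Dat.kG
  change k0 p M K (lam (x.D.prod x.D) (fun y => bx x.psi x.psi (eN x.D x.D y))) = _
  rw [lam_prod, k0_bx K (lam_one x.ok.2.1) (lam_one x.ok.2.1) (fun h => lam_integral x.ok.2.1 h), pow_two]

theorem Dat.kN_sq (x : Dat p M) : x.sq.kN K = x.kN K ^ 2 := by
  unfold Dat.kN
  change k0 p M K (om (fun y => bx x.psi x.psi (eN x.D x.D y))) = _
  rw [om_prod, k0_comp, k0_bx K (om_one x.ok.2.1) (om_one x.ok.2.1) (fun h => om_integral x.ok.2.1 h), pow_two]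

theorem Dat.card_sq (x : Dat p M) : Nat.card x.sq.G = Nat.card x.G ^ 2 := by
  change Nat.card (x.G × x.G) = _
  rw [Nat.card_prod, pow_two]

theorem Dat.powers (P : Dat p M → Prop) (hP : ∀ x, P x → P x.sq) (x : Dat p M) (hx : P x) (n : ℕ) :
    ∃ y : Dat p M, P y ∧ Nat.card y.G = Nat.card x.G ^ 2 ^ n ∧ y.kG K = x.kG K ^ 2 ^ n ∧
      y.kN K = x.kN K ^ 2 ^ n := by
  induction n with
  | zero => exact ⟨x, hx, by simp, by simp, by simp⟩
  | succ n ih =>
    obtain ⟨y, h1, h2, h3, h4⟩ := ih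
    refine ⟨y.sq, hP y h1, ?_, ?_, ?_⟩
    · rw [Dat.card_sq, h2, pow_succ 2 n, pow_mul]
    · rw [Dat.kG_sq, h3, pow_succ 2 n, pow_mul]
    · rw [Dat.kN_sq, h4, pow_succ 2 n, pow_mul]

theorem root_bound {x M C : ℝ} (hM : 0 < M) (h : ∀ n : ℕ, x ^ 2 ^ n ≤ C * M ^ 2 ^ n) : x ≤ M := by
  by_contra hlt
  push Not at hlt
  have h1 : 1 < x / M := by rwa [one_lt_div hM]
  have h2 : ∀ n : ℕ, (x / M) ^ 2 ^ n ≤ C := by
    intro n
    rw [div_pow, div_le_iff₀ (pow_pos hM _)]
    exact h n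
  have h3 := tendsto_pow_atTop_atTop_of_one_lt h1
  obtain ⟨N, hN⟩ := (h3.eventually_gt_atTop C).exists_forall_of_atTop
  exact absurd (h2 N) (not_le.2 (hN (2 ^ N) Nat.lt_two_pow_self.le))

/-- If `a^(2^n) ≤ C (g^(2^n))^ε b^(2^n)` for all `ε`, then `a ≤ b`. -/
theorem amplify {a b g : ℕ} (hg : 0 < g)
    (h : ∀ ε : ℝ, 0 < ε → ∃ C : ℝ, ∀ n : ℕ, ((a ^ 2 ^ n : ℕ) : ℝ) ≤
      C * ((g ^ 2 ^ n : ℕ) : ℝ) ^ ε * ((b ^ 2 ^ n : ℕ) : ℝ)) : a ≤ b := by
  have hg' : (0 : ℝ) < g := by exact_mod_cast hg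
  rcases Nat.eq_zero_or_pos b with rfl | hb
  · obtain ⟨C, hC⟩ := h 1 one_pos
    have := hC 0
    simp at this
    rw [this]
  · have hb' : (0 : ℝ) < b := by exact_mod_cast hb
    have key : ∀ ε : ℝ, 0 < ε → (a : ℝ) ≤ (g : ℝ) ^ ε * b := by
      intro ε hε
      obtain ⟨C, hC⟩ := h ε hε
      refine root_bound (C := C) (mul_pos (Real.rpow_pos_of_pos hg' _) hb') fun n => ?_
      have h1 := hC n
      push_cast at h1
      have h2 : ((g : ℝ) ^ 2 ^ n) ^ ε = ((g : ℝ) ^ ε) ^ 2 ^ n := by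
        rw [← Real.rpow_natCast, ← Real.rpow_natCast, ← Real.rpow_mul hg'.le, ← Real.rpow_mul hg'.le, mul_comm]
      rw [h2] at h1
      rw [mul_pow, ← mul_assoc]
      exact h1
    have hlim : Filter.Tendsto (fun n : ℕ => (g : ℝ) ^ (1 / ((n : ℝ) + 1)) * b)
        Filter.atTop (nhds ((g : ℝ) ^ (0 : ℝ) * b)) := by
      refine Filter.Tendsto.mul_const _ ?_
      exact (Real.continuousAt_const_rpow hg'.ne').tendsto.comp tendsto_one_div_add_atTop_nhds_zero_nat
    rw [Real.rpow_zero, one_mul] at hlim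
    exact_mod_cast ge_of_tendsto' hlim fun n => key _ (by positivity)

/-- The two counts agree for all data in a class closed under direct squares, if they agree up to a factor which is
a small power of the order of the group. -/
theorem main_iff (P : Dat p M → Prop) (hP : ∀ x, P x → P x.sq) :
    (∀ x, P x → x.kG K = x.kN K) ↔
    ∀ ε : ℝ, 0 < ε → ∃ C : ℝ, ∀ x, P x →
      (x.kG K : ℝ) ≤ C * (Nat.card x.G : ℝ) ^ ε * x.kN K ∧
      (x.kN K : ℝ) ≤ C * (Nat.card x.G : ℝ) ^ ε * x.kG K := by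
  constructor
  · intro h ε hε
    refine ⟨1, fun x hx => ?_⟩
    have h2 : (1 : ℝ) ≤ (Nat.card x.G : ℝ) ^ ε :=
      Real.one_le_rpow (by exact_mod_cast Nat.card_pos) hε.le
    rw [h x hx]
    have h3 : (0 : ℝ) ≤ (x.kN K : ℝ) := Nat.cast_nonneg _
    constructor <;> nlinarith
  · intro h x hx
    apply le_antisymm
    · refine amplify (g := Nat.card x.G) Nat.card_pos fun ε hε => ?_
      obtain ⟨C, hC⟩ := h ε hε
      refine ⟨C, fun n => ?_⟩
      obtain ⟨y, h1, h2, h3, h4⟩ := Dat.powers K P hP x hx n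
      rw [← h2, ← h3, ← h4]
      exact (hC y h1).1
    · refine amplify (g := Nat.card x.G) Nat.card_pos fun ε hε => ?_
      obtain ⟨C, hC⟩ := h ε hε
      refine ⟨C, fun n => ?_⟩
      obtain ⟨y, h1, h2, h3, h4⟩ := Dat.powers K P hP x hx n
      rw [← h2, ← h3, ← h4]
      exact (hC y h1).2

end Pool.Agent.X27.Chr
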