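import Pool.Agent.X27.Chr.Scal

set_option autoImplicit false
set_option linter.unusedSectionVars false

/-! Blocks of characters, height zero characters and direct products. -/

open scoped BigOperators Classical
open Representation

noncomputable section

namespace Pool.Agent.X27.Chr

open Pool.Agent.Helper884.IC

/-- Congruence of complex numbers modulo the ideal `M` of the ring of all algebraic integers. -/
def Cg (M : Ideal (integralClosure ℤ ℂ)) (a b : ℂ) : Prop := ∃ c ∈ M, (c : ℂ) = a - b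

theorem Cg.mul {M : Ideal (integralClosure ℤ ℂ)} {a b a' b' : ℂ} (ha : IsIntegral ℤ a) (hb' : IsIntegral ℤ b')
    (h : Cg M a b) (h' : Cg M a' b') : Cg M (a * a') (b * b') := by
  obtain ⟨c, hc, h⟩ := h
  obtain ⟨c', hc', h'⟩ := h'
  refine ⟨⟨a, ha⟩ * c' + ⟨b', hb'⟩ * c, M.add_mem (M.mul_mem_left _ hc') (M.mul_mem_left _ hc), ?_⟩
  change a * (c' : ℂ) + b' * (c : ℂ) = _
  rw [h, h']
  ring

section
variable {G : Type} [Group G] [Fintype G]

/-- The central character: the scalar by which the sum of the conjugates of `g` acts. -/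
def om (chi : G → ℂ) (g : G) : ℂ := scal {x | IsConj g x} chi

/-- The irreducible characters whose central character is congruent to `f` modulo `M`. -/
def Blk (M : Ideal (integralClosure ℤ ℂ)) (f : G → ℂ) : Set (G → ℂ) :=
  {chi | IsIrrChar chi ∧ ∀ g, Cg M (om chi g) (f g)}

/-- The degree. -/
def dg (chi : G → ℂ) : ℕ := ⌊(chi 1).re⌋₊

/-- The elements of `S` whose degree has the smallest possible `p`-part. -/
def H0 (p : ℕ) (S : Set (G → ℂ)) : Set (G → ℂ) :=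
  {chi | chi ∈ S ∧ ∀ psi ∈ S, padicValNat p (dg chi) ≤ padicValNat p (dg psi)}

/-- The number of the elements of `H0 p (Blk M f)` which are fixed by `K`. -/
def k0 (p : ℕ) (M : Ideal (integralClosure ℤ ℂ)) (K : Set (ℂ ≃+* ℂ)) (f : G → ℂ) : ℕ :=
  Nat.card {chi : G → ℂ // chi ∈ H0 p (Blk M f) ∧ ∀ τ ∈ K, ∀ g, τ (chi g) = chi g}

theorem om_one {chi : G → ℂ} (h : IsIrrChar chi) : om chi 1 = 1 := by
  unfold om
  have : {x : G | IsConj 1 x} = {1} := by
    ext x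
    simp
  rw [this, scal_one h]

theorem om_integral {chi : G → ℂ} (h : IsIrrChar chi) (g : G) : IsIntegral ℤ (om chi g) := by
  refine scal_integral ?_ h
  intro x hx y
  exact hx.trans (isConj_iff.2 ⟨y, rfl⟩)

theorem dg_eq {chi : G → ℂ} {n : ℕ} (h : chi 1 = n) : dg chi = n := by
  unfold dg
  rw [h, Complex.natCast_re, Nat.floor_natCast]

theorem dg_pos {chi : G → ℂ} (h : IsIrrChar chi) : 0 < dg chi := by
  obtain ⟨n, hn, h1⟩ := deg_pos h
  rwa [dg_eq h1]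

theorem dg_cast {chi : G → ℂ} (h : IsIrrChar chi) : chi 1 = dg chi := by
  obtain ⟨n, hn, h1⟩ := deg_pos h
  rw [dg_eq h1, h1]

end

section iso
variable {G H : Type} [Group G] [Fintype G] [Group H] [Fintype H]

theorem om_comp (e : G ≃* H) (chi : H → ℂ) (g : G) : om (fun g => chi (e g)) g = om chi (e g) := by
  unfold om
  rw [← scal_comp e {x | IsConj (e g) x} chi]
  congr 1
  ext x
  simp only [Set.mem_preimage, Set.mem_ofPred_eq]
  constructor
  · intro h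
    exact e.toMonoidHom.map_isConj h
  · intro h
    have := e.symm.toMonoidHom.map_isConj h
    simpa using this

theorem irr_comp_iff (e : G ≃* H) (chi : H → ℂ) : IsIrrChar (fun g => chi (e g)) ↔ IsIrrChar chi := by
  constructor
  · intro h
    have := irr_comp e.symm h
    simpa using this
  · exact irr_comp e

theorem blk_comp (M : Ideal (integralClosure ℤ ℂ)) (e : G ≃* H) (f chi : H → ℂ) :
    (fun g => chi (e g)) ∈ Blk M (fun g => f (e g)) ↔ chi ∈ Blk M f := by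
  unfold Blk
  simp only [Set.mem_ofPred_eq, irr_comp_iff]
  refine and_congr_right fun _ => ?_
  constructor
  · intro h g
    have := h (e.symm g)
    rw [om_comp] at this
    simpa using this
  · intro h g
    rw [om_comp]
    exact h (e g)

theorem dg_comp (e : G ≃* H) (chi : H → ℂ) : dg (fun g => chi (e g)) = dg chi := by
  unfold dg
  change ⌊(chi (e 1)).re⌋₊ = _
  rw [map_one]

/-- Transport of functions. -/
def trans (e : G ≃* H) : (H → ℂ) ≃ (G → ℂ) where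
  toFun chi := fun g => chi (e g)
  invFun chi := fun h => chi (e.symm h)
  left_inv chi := by funext h; simp
  right_inv chi := by funext h; simp

theorem H0_comp (p : ℕ) (M : Ideal (integralClosure ℤ ℂ)) (e : G ≃* H) (f chi : H → ℂ) :
    (fun g => chi (e g)) ∈ H0 p (Blk M (fun g => f (e g))) ↔ chi ∈ H0 p (Blk M f) := by
  unfold H0
  simp only [Set.mem_ofPred_eq, blk_comp, dg_comp]
  refine and_congr_right fun _ => ?_
  constructor
  · intro h psi hpsi
    have := h _ ((blk_comp M e f psi).2 hpsi)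
    rwa [dg_comp] at this
  · intro h psi hpsi
    obtain ⟨phi, rfl⟩ := (trans e).surjective psi
    have h1 := (blk_comp M e f phi).1 hpsi
    have h2 := h phi h1
    have h3 : dg ((trans e) phi) = dg phi := dg_comp e phi
    rwa [h3]

theorem k0_comp (p : ℕ) (M : Ideal (integralClosure ℤ ℂ)) (K : Set (ℂ ≃+* ℂ)) (e : G ≃* H) (f : H → ℂ) :
    k0 p M K (fun g => f (e g)) = k0 p M K f := by
  unfold k0
  refine (Nat.card_congr ?_).symm
  refine (trans e).subtypeEquiv fun chi => ?_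
  refine and_congr (H0_comp p M e f chi).symm ?_
  refine forall₂_congr fun τ _ => ?_
  constructor
  · intro h g
    exact h (e g)
  · intro h g
    have := h (e.symm g)
    simpa [trans] using this

end iso

section prod
variable {G H : Type} [Group G] [Fintype G] [Group H] [Fintype H]

theorem om_bx (chi : G → ℂ) (psi : H → ℂ) (x : G × H) : om (bx chi psi) x = om chi x.1 * om psi x.2 := by
  unfold om
  rw [← scal_bx]
  congr 1
  ext y
  simp only [Set.mem_ofPred_eq, Set.mem_prod, isConj_iff, Prod.exists]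
  constructor
  · rintro ⟨a, b, h⟩
    exact ⟨⟨a, congrArg Prod.fst h⟩, ⟨b, congrArg Prod.snd h⟩⟩
  · rintro ⟨⟨a, ha⟩, ⟨b, hb⟩⟩
    exact ⟨a, b, Prod.ext ha hb⟩

theorem blk_bx {M : Ideal (integralClosure ℤ ℂ)} {f : G → ℂ} {f' : H → ℂ} (h1 : f 1 = 1) (h1' : f' 1 = 1)
    (hf' : ∀ h, IsIntegral ℤ (f' h)) {chi : G → ℂ} {psi : H → ℂ}
    (hchi : IsIrrChar chi) (hpsi : IsIrrChar psi) :
    bx chi psi ∈ Blk M (bx f f') ↔ chi ∈ Blk M f ∧ psi ∈ Blk M f' := by
  constructor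
  · rintro ⟨_, h⟩
    refine ⟨⟨hchi, fun g => ?_⟩, ⟨hpsi, fun g => ?_⟩⟩
    · have := h (g, 1)
      rw [om_bx] at this
      simpa [bx, om_one hpsi, h1'] using this
    · have := h (1, g)
      rw [om_bx] at this
      simpa [bx, om_one hchi, h1] using this
  · rintro ⟨⟨_, h⟩, ⟨_, h'⟩⟩
    refine ⟨irr_bx hchi hpsi, fun x => ?_⟩
    rw [om_bx]
    exact Cg.mul (om_integral hchi _) (hf' _) (h x.1) (h' x.2)

theorem dg_bx {chi : G → ℂ} {psi : H → ℂ} (hchi : IsIrrChar chi) (hpsi : IsIrrChar psi) :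
    dg (bx chi psi) = dg chi * dg psi := by
  apply dg_eq
  unfold bx
  push_cast
  rw [← dg_cast hchi, ← dg_cast hpsi]
  rfl

theorem val_bx {p : ℕ} [Fact p.Prime] {chi : G → ℂ} {psi : H → ℂ} (hchi : IsIrrChar chi) (hpsi : IsIrrChar psi) :
    padicValNat p (dg (bx chi psi)) = padicValNat p (dg chi) + padicValNat p (dg psi) := by
  rw [dg_bx hchi hpsi, padicValNat.mul (dg_pos hchi).ne' (dg_pos hpsi).ne']

theorem H0_bx {p : ℕ} [Fact p.Prime] {M : Ideal (integralClosure ℤ ℂ)} {f : G → ℂ} {f' : H → ℂ}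
    (h1 : f 1 = 1) (h1' : f' 1 = 1) (hf' : ∀ h, IsIntegral ℤ (f' h)) {chi : G → ℂ} {psi : H → ℂ}
    (hchi : IsIrrChar chi) (hpsi : IsIrrChar psi) :
    bx chi psi ∈ H0 p (Blk M (bx f f')) ↔ chi ∈ H0 p (Blk M f) ∧ psi ∈ H0 p (Blk M f') := by
  constructor
  · rintro ⟨h, hmin⟩
    obtain ⟨ha, hb⟩ := (blk_bx h1 h1' hf' hchi hpsi).1 h
    refine ⟨⟨ha, fun chi' h' => ?_⟩, ⟨hb, fun psi' h' => ?_⟩⟩
    · have := hmin _ ((blk_bx h1 h1' hf' h'.1 hpsi).2 ⟨h', hb⟩)
      rw [val_bx hchi hpsi, val_bx h'.1 hpsi] at this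
      omega
    · have := hmin _ ((blk_bx h1 h1' hf' hchi h'.1).2 ⟨ha, h'⟩)
      rw [val_bx hchi hpsi, val_bx hchi h'.1] at this
      omega
  · rintro ⟨⟨ha, hma⟩, ⟨hb, hmb⟩⟩
    refine ⟨(blk_bx h1 h1' hf' hchi hpsi).2 ⟨ha, hb⟩, fun phi hphi => ?_⟩
    obtain ⟨chi', psi', hc, hp, rfl⟩ := irr_prod_surj hphi.1
    obtain ⟨ha', hb'⟩ := (blk_bx h1 h1' hf' hc hp).1 hphi
    rw [val_bx hchi hpsi, val_bx hc hp]
    exact add_le_add (hma _ ha') (hmb _ hb')

theorem fix_bx (K : Set (ℂ ≃+* ℂ)) {chi : G → ℂ} {psi : H → ℂ} (hchi : IsIrrChar chi) (hpsi : IsIrrChar psi) :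
    (∀ τ ∈ K, ∀ g, τ (bx chi psi g) = bx chi psi g) ↔
      (∀ τ ∈ K, ∀ g, τ (chi g) = chi g) ∧ ∀ τ ∈ K, ∀ g, τ (psi g) = psi g := by
  have hc : chi 1 ≠ 0 := by
    rw [dg_cast hchi]; exact_mod_cast (dg_pos hchi).ne'
  have hp : psi 1 ≠ 0 := by
    rw [dg_cast hpsi]; exact_mod_cast (dg_pos hpsi).ne'
  constructor
  · intro h
    refine ⟨fun τ hτ g => ?_, fun τ hτ g => ?_⟩
    · have := h τ hτ (g, 1)
      unfold bx at this
      simp only [map_mul] at this
      rw [dg_cast hpsi, map_natCast, ← dg_cast hpsi] at this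
      exact mul_right_cancel₀ hp this
    · have := h τ hτ (1, g)
      unfold bx at this
      simp only [map_mul] at this
      rw [dg_cast hchi, map_natCast, ← dg_cast hchi] at this
      exact mul_left_cancel₀ hc this
  · rintro ⟨h, h'⟩ τ hτ g
    unfold bx
    rw [map_mul, h τ hτ, h' τ hτ]

theorem k0_bx {p : ℕ} [Fact p.Prime] {M : Ideal (integralClosure ℤ ℂ)} (K : Set (ℂ ≃+* ℂ)) {f : G → ℂ}
    {f' : H → ℂ} (h1 : f 1 = 1) (h1' : f' 1 = 1) (hf' : ∀ h, IsIntegral ℤ (f' h)) :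
    k0 p M K (bx f f') = k0 p M K f * k0 p M K f' := by
  let F : {chi : G → ℂ // chi ∈ H0 p (Blk M f) ∧ ∀ τ ∈ K, ∀ g, τ (chi g) = chi g} ×
      {psi : H → ℂ // psi ∈ H0 p (Blk M f') ∧ ∀ τ ∈ K, ∀ g, τ (psi g) = psi g} →
      {phi : G × H → ℂ // phi ∈ H0 p (Blk M (bx f f')) ∧ ∀ τ ∈ K, ∀ g, τ (phi g) = phi g} :=
    fun x => ⟨bx x.1.1 x.2.1, (H0_bx h1 h1' hf' x.1.2.1.1.1 x.2.2.1.1.1).2 ⟨x.1.2.1, x.2.2.1⟩,
      (fix_bx K x.1.2.1.1.1 x.2.2.1.1.1).2 ⟨x.1.2.2, x.2.2.2⟩⟩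
  have hinj : Function.Injective F := by
    rintro ⟨⟨a, ha⟩, ⟨b, hb⟩⟩ ⟨⟨a', ha'⟩, ⟨b', hb'⟩⟩ h
    have h2 : bx a b = bx a' b' := congrArg Subtype.val h
    obtain ⟨rfl, rfl⟩ := bx_inj ha.1.1.1 ha'.1.1.1 hb.1.1.1 hb'.1.1.1 h2
    rfl
  have hsurj : Function.Surjective F := by
    rintro ⟨phi, hphi⟩
    obtain ⟨chi, psi, hc, hp, rfl⟩ := irr_prod_surj hphi.1.1.1
    obtain ⟨h2, h3⟩ := (H0_bx h1 h1' hf' hc hp).1 hphi.1
    obtain ⟨h4, h5⟩ := (fix_bx K hc hp).1 hphi.2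
    exact ⟨⟨⟨chi, h2, h4⟩, ⟨psi, h3, h5⟩⟩, rfl⟩
  unfold k0
  rw [← Nat.card_prod]
  exact (Nat.card_congr (Equiv.ofBijective F ⟨hinj, hsurj⟩)).symm

end prod

end Pool.Agent.X27.Chr
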