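import Pool.Agent.X27.Chr.AM

set_option autoImplicit false
set_option linter.unusedSectionVars false

/-! Characters of degree prime to `p`, Sylow normalisers and direct squares. -/

open scoped BigOperators Classical
open Representation

noncomputable section

namespace Pool.Agent.X27.Chr

open Pool.Agent.Helper884.IC

/-- The number of irreducible characters of degree prime to `p` which are fixed by `K`. -/
def cp (p : ℕ) (K : Set (ℂ ≃+* ℂ)) (G : Type) [Group G] [Fintype G] : ℕ :=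
  Nat.card {chi : G → ℂ // (IsIrrChar chi ∧ ¬ p ∣ dg chi) ∧ ∀ τ ∈ K, ∀ g, τ (chi g) = chi g}

theorem cp_congr (p : ℕ) (K : Set (ℂ ≃+* ℂ)) {G H : Type} [Group G] [Fintype G] [Group H] [Fintype H]
    (e : G ≃* H) : cp p K G = cp p K H := by
  unfold cp
  refine (Nat.card_congr ?_).symm
  refine (trans e).subtypeEquiv fun chi => ?_
  refine and_congr (and_congr (irr_comp_iff e chi).symm ?_) ?_
  · have h3 : dg ((trans e) chi) = dg chi := dg_comp e chi
    rw [h3]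
  · refine forall₂_congr fun τ _ => ?_
    constructor
    · intro h g
      exact h (e g)
    · intro h g
      have := h (e.symm g)
      simpa [trans] using this

theorem cp_prod (p : ℕ) [hp : Fact p.Prime] (K : Set (ℂ ≃+* ℂ)) {G H : Type} [Group G] [Fintype G]
    [Group H] [Fintype H] : cp p K (G × H) = cp p K G * cp p K H := by
  let F : {chi : G → ℂ // (IsIrrChar chi ∧ ¬ p ∣ dg chi) ∧ ∀ τ ∈ K, ∀ g, τ (chi g) = chi g} ×
      {psi : H → ℂ // (IsIrrChar psi ∧ ¬ p ∣ dg psi) ∧ ∀ τ ∈ K, ∀ g, τ (psi g) = psi g} →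
      {phi : G × H → ℂ // (IsIrrChar phi ∧ ¬ p ∣ dg phi) ∧ ∀ τ ∈ K, ∀ g, τ (phi g) = phi g} :=
    fun x => ⟨bx x.1.1 x.2.1, ⟨irr_bx x.1.2.1.1 x.2.2.1.1, by
      rw [dg_bx x.1.2.1.1 x.2.2.1.1, hp.out.dvd_mul]
      exact not_or.2 ⟨x.1.2.1.2, x.2.2.1.2⟩⟩,
      (fix_bx K x.1.2.1.1 x.2.2.1.1).2 ⟨x.1.2.2, x.2.2.2⟩⟩
  have hinj : Function.Injective F := by
    rintro ⟨⟨a, ha⟩, ⟨b, hb⟩⟩ ⟨⟨a', ha'⟩, ⟨b', hb'⟩⟩ h
    have h2 : bx a b = bx a' b' := congrArg Subtype.val h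
    obtain ⟨rfl, rfl⟩ := bx_inj ha.1.1 ha'.1.1 hb.1.1 hb'.1.1 h2
    rfl
  have hsurj : Function.Surjective F := by
    rintro ⟨phi, hphi⟩
    obtain ⟨chi, psi, hc, hq, rfl⟩ := irr_prod_surj hphi.1.1
    have h2 := hphi.1.2
    rw [dg_bx hc hq, hp.out.dvd_mul, not_or] at h2
    obtain ⟨h4, h5⟩ := (fix_bx K hc hq).1 hphi.2
    exact ⟨⟨⟨chi, ⟨hc, h2.1⟩, h4⟩, ⟨psi, ⟨hq, h2.2⟩, h5⟩⟩, rfl⟩
  unfold cp
  rw [← Nat.card_prod]
  exact (Nat.card_congr (Equiv.ofBijective F ⟨hinj, hsurj⟩)).symm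

/-- A finite group with a Sylow `p`-subgroup. -/
structure Syl (p : ℕ) where
  G : Type
  [grp : Group G]
  [fin : Fintype G]
  D : Subgroup G
  pgroup : IsPGroup p D
  index : ¬ p ∣ D.index

attribute [instance] Syl.grp Syl.fin

variable {p : ℕ}

/-- The number of the `K`-fixed irreducible characters of `G` of degree prime to `p`. -/
def Syl.cG (K : Set (ℂ ≃+* ℂ)) (x : Syl p) : ℕ := cp p K x.G

/-- The number of the `K`-fixed irreducible characters of `N_G(D)` of degree prime to `p`. -/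
def Syl.cN (K : Set (ℂ ≃+* ℂ)) (x : Syl p) : ℕ := cp p K (Nm x.D)

/-- The direct square. -/
def Syl.sq [hp : Fact p.Prime] (x : Syl p) : Syl p where
  G := x.G × x.G
  D := x.D.prod x.D
  pgroup := by
    obtain ⟨a, ha⟩ := IsPGroup.iff_card.1 x.pgroup
    refine IsPGroup.iff_card.2 ⟨a + a, ?_⟩
    rw [Nat.card_congr (Subgroup.prodEquiv x.D x.D).toEquiv, Nat.card_prod, ha, pow_add]
  index := by
    rw [Subgroup.index_prod, hp.out.dvd_mul, or_self]
    exact x.index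

variable [hp : Fact p.Prime] (K : Set (ℂ ≃+* ℂ))

theorem Syl.cG_sq (x : Syl p) : x.sq.cG K = x.cG K ^ 2 := by
  unfold Syl.cG
  change cp p K (x.G × x.G) = _
  rw [cp_prod, pow_two]

theorem Syl.cN_sq (x : Syl p) : x.sq.cN K = x.cN K ^ 2 := by
  unfold Syl.cN
  change cp p K (Nm (x.D.prod x.D)) = _
  rw [cp_congr p K (eN x.D x.D), cp_prod, pow_two]

theorem Syl.card_sq (x : Syl p) : Nat.card x.sq.G = Nat.card x.G ^ 2 := by
  change Nat.card (x.G × x.G) = _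
  rw [Nat.card_prod, pow_two]

theorem Syl.powers (P : Syl p → Prop) (hP : ∀ x, P x → P x.sq) (x : Syl p) (hx : P x) (n : ℕ) :
    ∃ y : Syl p, P y ∧ Nat.card y.G = Nat.card x.G ^ 2 ^ n ∧ y.cG K = x.cG K ^ 2 ^ n ∧
      y.cN K = x.cN K ^ 2 ^ n := by
  induction n with
  | zero => exact ⟨x, hx, by simp, by simp, by simp⟩
  | succ n ih =>
    obtain ⟨y, h1, h2, h3, h4⟩ := ih
    refine ⟨y.sq, hP y h1, ?_, ?_, ?_⟩
    · rw [Syl.card_sq, h2, pow_succ 2 n, pow_mul]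
    · rw [Syl.cG_sq, h3, pow_succ 2 n, pow_mul]
    · rw [Syl.cN_sq, h4, pow_succ 2 n, pow_mul]

end Pool.Agent.X27.Chr
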