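import Pool.Agent.X27.Chr.Prod

set_option autoImplicit false
set_option linter.unusedSectionVars false

/-! The scalars by which sums of conjugacy classes act. -/

open scoped BigOperators Classical
open Representation

noncomputable section

namespace Pool.Agent.X27.Chr

open Pool.Agent.Helper884.IC

section
variable {G : Type} [Group G] [Fintype G]

/-- The scalar by which the sum of the elements of `T` acts. -/
def scal (T : Set G) (chi : G → ℂ) : ℂ := (∑ x : G, if x ∈ T then chi x else 0) / chi 1

theorem scal_integral {T : Set G} (hT : ∀ x ∈ T, ∀ g, g * x * g⁻¹ ∈ T) {chi : G → ℂ}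
    (h : IsIrrChar chi) : IsIntegral ℤ (scal T chi) := by
  obtain ⟨n, hn, hchi1⟩ := deg_pos h
  obtain ⟨V, _, _, _, rho, hr, rfl⟩ := h
  have hfin : Module.finrank ℂ V = n := by
    have := rho.char_one
    rw [hchi1] at this
    exact_mod_cast this.symm
  have hV : Nontrivial V := Module.nontrivial_of_finrank_pos (R := ℂ) (by rw [hfin]; exact hn)
  set S : V →ₗ[ℂ] V := ∑ x : G, if x ∈ T then rho x else 0 with hS
  have hcomm : ∀ (g : G) (v : V), S (rho g v) = rho g (S v) := by
    intro g v
    have h1 : (S : Module.End ℂ V) * rho g = rho g * S := by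
      rw [hS, Finset.sum_mul, Finset.mul_sum]
      refine Fintype.sum_equiv (MulAut.conj g⁻¹).toEquiv _ _ fun x => ?_
      have e1 : (MulAut.conj g⁻¹).toEquiv x = g⁻¹ * x * g := by simp
      rw [e1]
      have h2 : x ∈ T ↔ g⁻¹ * x * g ∈ T := by
        constructor
        · intro hx
          have := hT x hx g⁻¹
          rwa [inv_inv] at this
        · intro hx
          have := hT _ hx g
          have h3 : g * (g⁻¹ * x * g) * g⁻¹ = x := by group
          rwa [h3] at this
      by_cases hx : x ∈ T
      · rw [if_pos hx, if_pos (h2.1 hx)]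
        rw [← map_mul, ← map_mul]
        congr 1
        group
      · rw [if_neg hx, if_neg (fun h => hx (h2.2 h))]
        simp
    exact LinearMap.congr_fun h1 v
  let T' : IntertwiningMap rho rho := S.intertwiningMap_of_isIntertwiningMap rho rho hcomm
  obtain ⟨c, hc⟩ := (Representation.IsIrreducible.algebraMap_intertwiningMap_bijective_of_isAlgClosed
    (ρ := rho)).2 T'
  have hTc : S = c • LinearMap.id := by
    ext v
    have := congrArg (fun S : IntertwiningMap rho rho => S v) hc
    have h2 : T' v = S v := rfl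
    rw [← h2]
    exact this.symm
  have htr : LinearMap.trace ℂ V S = ∑ x : G, if x ∈ T then rho.character x else 0 := by
    rw [hS, map_sum]
    refine Finset.sum_congr rfl fun x _ => ?_
    by_cases hx : x ∈ T
    · rw [if_pos hx, if_pos hx]; rfl
    · rw [if_neg hx, if_neg hx, map_zero]
  have hval : scal T rho.character = c := by
    unfold scal
    rw [← htr, hTc, hchi1, map_smul, LinearMap.trace_id, smul_eq_mul, hfin, mul_div_assoc, div_self, mul_one]
    exact_mod_cast hn.ne'
  rw [hval]
  -- integrality
  let φ : MonoidAlgebra ℤ G →ₐ[ℤ] Module.End ℂ V := MonoidAlgebra.lift ℤ _ G rho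
  let z : MonoidAlgebra ℤ G := ∑ x : G, if x ∈ T then MonoidAlgebra.of ℤ G x else 0
  have hz : φ z = S := by
    rw [hS, map_sum]
    refine Finset.sum_congr rfl fun x _ => ?_
    by_cases hx : x ∈ T
    · rw [if_pos hx, if_pos hx]
      exact MonoidAlgebra.lift_of _ _
    · rw [if_neg hx, if_neg hx, map_zero]
  have hint : IsIntegral ℤ S := by
    rw [← hz]
    exact (IsIntegral.of_finite ℤ z).map φ
  have h3 : S = algebraMap ℂ (Module.End ℂ V) c := by
    rw [hTc]
    rfl
  rw [h3] at hint
  exact (isIntegral_algebraMap_iff (FaithfulSMul.algebraMap_injective ℂ (Module.End ℂ V))).1 hint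

theorem scal_one {chi : G → ℂ} (h : IsIrrChar chi) : scal {1} chi = 1 := by
  obtain ⟨n, hn, h1⟩ := deg_pos h
  unfold scal
  rw [div_eq_one_iff_eq (by rw [h1]; exact_mod_cast hn.ne')]
  simp

theorem scal_comp {H : Type} [Group H] [Fintype H] (e : G ≃* H) (T : Set H) (chi : H → ℂ) :
    scal (e ⁻¹' T) (fun g => chi (e g)) = scal T chi := by
  unfold scal
  change _ / chi (e 1) = _
  rw [map_one]
  congr 1
  exact Fintype.sum_equiv e.toEquiv _ _ fun g => rfl

end

section prod
variable {G H : Type} [Group G] [Fintype G] [Group H] [Fintype H]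

theorem scal_bx (T : Set G) (T' : Set H) (chi : G → ℂ) (psi : H → ℂ) :
    scal (T ×ˢ T') (bx chi psi) = scal T chi * scal T' psi := by
  unfold scal bx
  rw [Fintype.sum_prod_type, div_mul_div_comm]
  congr 1
  rw [Finset.sum_mul_sum]
  refine Finset.sum_congr rfl fun x _ => Finset.sum_congr rfl fun y _ => ?_
  by_cases hx : x ∈ T <;> by_cases hy : y ∈ T' <;> simp [hx, hy]

end prod

end Pool.Agent.X27.Chr
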